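import Mathlib

/-!
# Intrinsic volumes of projections: definitions
-/

set_option autoImplicit false

open MeasureTheory
open scoped ENNReal

namespace Pool.Agent.H892R2.Proj

/-- Euclidean space of dimension `n`. -/
abbrev E (n : ℕ) : Type := EuclideanSpace ℝ (Fin n)

/-- The orthogonal group `O(m)`, as a group of matrices. -/
abbrev O (m : ℕ) : Type := ↥(Matrix.orthogonalGroup (Fin m) ℝ)

instance measO (m : ℕ) : MeasurableSpace (O m) := borel _

instance borelO (m : ℕ) : BorelSpace (O m) := ⟨rfl⟩

instance compactO (m : ℕ) : CompactSpace (O m) := by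
  refine isCompact_iff_compactSpace.1 ?_
  have h1 : IsCompact (Set.univ.pi (fun _ : Fin m => Set.univ.pi (fun _ : Fin m =>
      Metric.closedBall (0 : ℝ) 1))) :=
    isCompact_univ_pi fun _ => isCompact_univ_pi fun _ => isCompact_closedBall 0 1
  refine IsCompact.of_isClosed_subset h1 (isClosed_unitary (R := Matrix (Fin m) (Fin m) ℝ)) ?_
  intro u hu i _ k _
  rw [mem_closedBall_zero_iff]
  exact entry_norm_bound_of_unitary hu i k

/-- The Haar probability measure of the orthogonal group. -/
noncomputable def haarO (m : ℕ) : Measure (O m) := Measure.haarMeasure ⊤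

instance (m : ℕ) : (haarO m).IsHaarMeasure := by unfold haarO; infer_instance

instance (m : ℕ) : IsProbabilityMeasure (haarO m) := ⟨by
  unfold haarO
  exact Measure.haarMeasure_self⟩

/-- The span of the first `i` columns of `g`. For `g` distributed according to the Haar
probability measure of `O(m)` this is a random `i`-dimensional subspace of `E m`, uniformly
distributed on the Grassmannian. -/
def plane (m i : ℕ) (g : O m) : Submodule ℝ (E m) :=
  Submodule.span ℝ {x | ∃ k : Fin m, (k : ℕ) < i ∧ ∀ l, x l = g.1 l k}

/-- The orthogonal projection `K|W` of the set `K` onto the subspace `W`. -/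
noncomputable def proj {F : Type} [NormedAddCommGroup F] [InnerProductSpace ℝ F]
    (K : Set F) (W : Submodule ℝ F) [W.HasOrthogonalProjection] : Set F :=
  W.starProjection '' K

/-- The subset `A` of `F`, viewed inside the subspace `W`. -/
def within {F : Type} [NormedAddCommGroup F] [InnerProductSpace ℝ F] (W : Submodule ℝ F)
    (A : Set F) : Set W := {y | (y : F) ∈ A}

/-- Lebesgue measure of a set in a finite-dimensional Euclidean vector space. -/
noncomputable def vol {F : Type} [NormedAddCommGroup F] [InnerProductSpace ℝ F]
    [FiniteDimensional ℝ F] [MeasurableSpace F] [BorelSpace F] (A : Set F) : ℝ≥0∞ := volume A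

/-- The volume `κ_m` of the unit ball of `E m`. -/
noncomputable def kappa (m : ℕ) : ℝ := (volume (Metric.closedBall (0 : E m) 1)).toReal

/-- The constant of Kubota's formula. -/
noncomputable def flagCoeff (m i : ℕ) : ℝ :=
  (m.choose i : ℝ) * kappa m / (kappa i * kappa (m - i))

/-- The `i`-th intrinsic volume of a compact convex subset of `E m`, by Kubota's formula. -/
noncomputable def intrinsicVolume (m i : ℕ) (K : Set (E m)) : ℝ≥0∞ :=
  ENNReal.ofReal (flagCoeff m i) *
    ∫⁻ g, vol (within (plane m i g) (proj K (plane m i g))) ∂(haarO m)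

/-- The coordinates of the point `x` of the finite-dimensional Euclidean vector space `F` in an
orthonormal basis of `F`. -/
noncomputable def coord {F : Type} [NormedAddCommGroup F] [InnerProductSpace ℝ F]
    [FiniteDimensional ℝ F] (x : F) : E (Module.finrank ℝ F) :=
  WithLp.toLp 2 fun l => inner ℝ (stdOrthonormalBasis ℝ F l) x

/-- The set of the coordinates of the points of a subset of `F`. -/
noncomputable def coords {F : Type} [NormedAddCommGroup F] [InnerProductSpace ℝ F]
    [FiniteDimensional ℝ F] (A : Set F) : Set (E (Module.finrank ℝ F)) := coord '' A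

/-- `V_i(K|S)`, the intrinsic volume of the projection, computed in `S`. -/
noncomputable def projVolume {n : ℕ} (i : ℕ) (K : Set (E n)) (S : Submodule ℝ (E n)) : ℝ≥0∞ :=
  intrinsicVolume (Module.finrank ℝ S) i (coords (within S (proj K S)))

end Pool.Agent.H892R2.Proj
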