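import Mathlib

set_option autoImplicit false

open Set MeasureTheory Filter Topology
open scoped ENNReal Real

namespace Pool.Agent.H892R2.Proj

/-- the boundary map scaled -/
noncomputable def F (h h1 : ℝ → ℝ) (x : ℝ × ℝ) : ℝ × ℝ :=
  (x.1 * (h x.2 * Real.cos x.2 - h1 x.2 * Real.sin x.2),
   x.1 * (h x.2 * Real.sin x.2 + h1 x.2 * Real.cos x.2))

/-- its derivative -/
noncomputable def F' (h h1 h2 : ℝ → ℝ) (x : ℝ × ℝ) : ℝ × ℝ →L[ℝ] ℝ × ℝ :=
  (Matrix.toLin (.finTwoProd ℝ) (.finTwoProd ℝ)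
    !![h x.2 * Real.cos x.2 - h1 x.2 * Real.sin x.2, x.1 * (-(h x.2 + h2 x.2) * Real.sin x.2);
       h x.2 * Real.sin x.2 + h1 x.2 * Real.cos x.2,
        x.1 * ((h x.2 + h2 x.2) * Real.cos x.2)]).toContinuousLinearMap

theorem F'_det (h h1 h2 : ℝ → ℝ) (x : ℝ × ℝ) :
    (F' h h1 h2 x).det = x.1 * (h x.2 * (h x.2 + h2 x.2)) := by
  unfold F'
  simp only [LinearMap.det_toContinuousLinearMap, LinearMap.det_toLin, Matrix.det_fin_two_of]
  have := Real.cos_sq_add_sin_sq x.2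
  linear_combination (x.1 * (h x.2 * (h x.2 + h2 x.2))) * this

theorem F_hasFDerivAt (h h1 h2 : ℝ → ℝ) (d1 : ∀ θ, HasDerivAt h (h1 θ) θ)
    (d2 : ∀ θ, HasDerivAt h1 (h2 θ) θ) (x : ℝ × ℝ) :
    HasFDerivAt (F h h1) (F' h h1 h2 x) x := by
  unfold F'
  rw [Matrix.toLin_finTwoProd_toContinuousLinearMap]
  have ha : HasDerivAt (fun θ => h θ * Real.cos θ - h1 θ * Real.sin θ)
      (-(h x.2 + h2 x.2) * Real.sin x.2) x.2 := by
    have := ((d1 x.2).mul (Real.hasDerivAt_cos x.2)).sub ((d2 x.2).mul (Real.hasDerivAt_sin x.2))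
    refine this.congr_deriv ?_
    ring
  have hb : HasDerivAt (fun θ => h θ * Real.sin θ + h1 θ * Real.cos θ)
      ((h x.2 + h2 x.2) * Real.cos x.2) x.2 := by
    have := ((d1 x.2).mul (Real.hasDerivAt_sin x.2)).add ((d2 x.2).mul (Real.hasDerivAt_cos x.2))
    refine this.congr_deriv ?_
    ring
  have h3 := HasFDerivAt.prodMk (𝕜 := ℝ)
      ((hasFDerivAt_fst (𝕜 := ℝ) (p := x)).mul (ha.comp_hasFDerivAt x hasFDerivAt_snd))
      ((hasFDerivAt_fst (𝕜 := ℝ) (p := x)).mul (hb.comp_hasFDerivAt x hasFDerivAt_snd))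
  refine h3.congr_fderiv ?_
  ext <;> simp

theorem F_inj (h h1 : ℝ → ℝ) (pos : ∀ θ, 0 < h θ) (c : ℝ) (hc : 0 < c)
    (strict : ∀ θ φ, h θ * Real.cos (φ - θ) + h1 θ * Real.sin (φ - θ) +
      c * (1 - Real.cos (φ - θ)) ≤ h φ) :
    InjOn (F h h1) (Ioc 0 1 ×ˢ Ico 0 (2 * π)) := by
  have key : ∀ r θ φ, F h h1 (r, θ) = (r * (h θ * Real.cos θ - h1 θ * Real.sin θ),
      r * (h θ * Real.sin θ + h1 θ * Real.cos θ)) ∧
      (F h h1 (r, θ)).1 * Real.cos φ + (F h h1 (r, θ)).2 * Real.sin φ =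
        r * (h θ * Real.cos (φ - θ) + h1 θ * Real.sin (φ - θ)) := by
    intro r θ φ
    refine ⟨rfl, ?_⟩
    simp only [F]
    rw [Real.cos_sub, Real.sin_sub]
    ring
  rintro ⟨r, θ⟩ ⟨⟨hr0, hr1⟩, ⟨ht0, ht1⟩⟩ ⟨r', θ'⟩ ⟨⟨hr0', hr1'⟩, ⟨ht0', ht1'⟩⟩ heq
  simp only at hr0 hr1 ht0 ht1 hr0' hr1' ht0' ht1'
  have e1 := (key r θ θ').2
  have e2 := (key r' θ' θ').2
  have e3 := (key r θ θ).2
  have e4 := (key r' θ' θ).2
  rw [heq] at e1 e3
  rw [e2] at e1
  rw [e4] at e3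
  simp only [sub_self, Real.cos_zero, Real.sin_zero, mul_one, mul_zero, add_zero] at e1 e3
  -- e1 : r' * h θ' = r * (...), e3 : r' * (...) = r * h θ
  have s1 := strict θ θ'
  have s2 := strict θ' θ
  have p1 := pos θ
  have p2 := pos θ'
  have hcs : Real.cos (θ - θ') = Real.cos (θ' - θ) := by rw [← Real.cos_neg]; congr 1; ring
  have hcl := Real.cos_le_one (θ' - θ)
  have l1 : r' * h θ' ≤ r * h θ' - r * (c * (1 - Real.cos (θ' - θ))) := by
    rw [e1]; nlinarith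
  have l2 : r * h θ ≤ r' * h θ - r' * (c * (1 - Real.cos (θ' - θ))) := by
    rw [← e3]; rw [hcs] at s2; rw [hcs] ; nlinarith
  have m1 : 0 ≤ r * (c * (1 - Real.cos (θ' - θ))) := by
    have : 0 ≤ 1 - Real.cos (θ' - θ) := by linarith
    positivity
  have m2 : 0 ≤ r' * (c * (1 - Real.cos (θ' - θ))) := by
    have : 0 ≤ 1 - Real.cos (θ' - θ) := by linarith
    positivity
  have hrr : r = r' := by
    apply le_antisymm
    · by_contra hlt
      push Not at hlt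
      nlinarith
    · by_contra hlt
      push Not at hlt
      nlinarith
  subst hrr
  have hcos : Real.cos (θ' - θ) = 1 := by
    have h3 : r * (c * (1 - Real.cos (θ' - θ))) ≤ 0 := by linarith
    have h4 : r * (c * (1 - Real.cos (θ' - θ))) = 0 := le_antisymm h3 m1
    rcases mul_eq_zero.mp h4 with h5 | h5
    · linarith
    · rcases mul_eq_zero.mp h5 with h6 | h6
      · linarith
      · linarith
  have h7 := (Real.cos_eq_one_iff_of_lt_of_lt (x := θ' - θ) (by linarith) (by linarith)).mp hcos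
  rw [Prod.mk.injEq]
  exact ⟨rfl, by linarith⟩

theorem F_surj (h h1 : ℝ → ℝ) (d1 : ∀ θ, HasDerivAt h (h1 θ) θ)
    (per : ∀ θ, h (θ + 2 * π) = h θ) (pos : ∀ θ, 0 < h θ)
    (y : ℝ × ℝ) (hy : ∀ φ, y.1 * Real.cos φ + y.2 * Real.sin φ ≤ h φ) (hy0 : y ≠ 0) :
    y ∈ F h h1 '' (Ioc 0 1 ×ˢ Ico 0 (2 * π)) := by
  have hcont : Continuous h := continuous_iff_continuousAt.mpr fun θ => (d1 θ).continuousAt
  set k : ℝ → ℝ := fun φ => (y.1 * Real.cos φ + y.2 * Real.sin φ) / h φ with hk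
  have hkc : Continuous k := by
    rw [hk]
    exact Continuous.div (by fun_prop) hcont fun φ => (pos φ).ne'
  have hkper : Function.Periodic k (2 * π) := by
    intro φ
    simp only [hk]
    rw [per, Real.cos_add_two_pi, Real.sin_add_two_pi]
  obtain ⟨φ0, hφ0, hmax⟩ := isCompact_Icc.exists_isMaxOn
    (nonempty_Icc.mpr (by positivity : (0:ℝ) ≤ 2 * π)) (f := k) hkc.continuousOn
  have hglob : ∀ φ, k φ ≤ k φ0 := by
    intro φ
    obtain ⟨ψ, hψ, hψe⟩ := hkper.exists_mem_Ico₀ (by positivity) φ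
    rw [hψe]
    exact hmax ⟨hψ.1, hψ.2.le⟩
  -- derivative zero
  have hder : HasDerivAt k (((-y.1 * Real.sin φ0 + y.2 * Real.cos φ0) * h φ0 -
      (y.1 * Real.cos φ0 + y.2 * Real.sin φ0) * h1 φ0) / h φ0 ^ 2) φ0 := by
    have h3 : HasDerivAt (fun φ => y.1 * Real.cos φ + y.2 * Real.sin φ)
        (-y.1 * Real.sin φ0 + y.2 * Real.cos φ0) φ0 := by
      have := ((Real.hasDerivAt_cos φ0).const_mul y.1).add
        ((Real.hasDerivAt_sin φ0).const_mul y.2)
      refine this.congr_deriv ?_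
      ring
    exact h3.div (d1 φ0) (pos φ0).ne'
  have hloc : IsLocalMax k φ0 := Filter.Eventually.of_forall hglob
  have hz := hloc.hasDerivAt_eq_zero hder
  have hp := pos φ0
  rw [div_eq_zero_iff] at hz
  have hz' : (-y.1 * Real.sin φ0 + y.2 * Real.cos φ0) * h φ0 =
      (y.1 * Real.cos φ0 + y.2 * Real.sin φ0) * h1 φ0 := by
    rcases hz with hz | hz
    · linarith
    · exfalso; have : 0 < h φ0 ^ 2 := by positivity
      linarith
  set r := k φ0 with hr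
  have hr1 : r ≤ 1 := by
    rw [hr, hk]
    simp only
    rw [div_le_one hp]
    exact hy φ0
  have hrh : y.1 * Real.cos φ0 + y.2 * Real.sin φ0 = r * h φ0 := by
    rw [hr, hk]; field_simp
  have hrh1 : -y.1 * Real.sin φ0 + y.2 * Real.cos φ0 = r * h1 φ0 := by
    have h3 : (-y.1 * Real.sin φ0 + y.2 * Real.cos φ0) * h φ0 = (r * h1 φ0) * h φ0 := by
      rw [hz', hrh]; ring
    exact mul_right_cancel₀ hp.ne' h3
  have hcs := Real.cos_sq_add_sin_sq φ0
  have hy1 : y.1 = r * (h φ0 * Real.cos φ0 - h1 φ0 * Real.sin φ0) := by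
    linear_combination (-y.1) * hcs + Real.cos φ0 * hrh - Real.sin φ0 * hrh1
  have hy2 : y.2 = r * (h φ0 * Real.sin φ0 + h1 φ0 * Real.cos φ0) := by
    linear_combination (-y.2) * hcs + Real.sin φ0 * hrh + Real.cos φ0 * hrh1
  -- r positive
  have hr0 : 0 < r := by
    by_contra hle
    push Not at hle
    have hall : ∀ φ, y.1 * Real.cos φ + y.2 * Real.sin φ ≤ 0 := by
      intro φ
      have h3 := (hglob φ).trans hle
      rw [hk] at h3
      simp only at h3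
      rw [div_le_iff₀ (pos φ), zero_mul] at h3
      exact h3
    apply hy0
    have a1 := hall 0
    have a2 := hall π
    have a3 := hall (π / 2)
    have a4 := hall (-(π / 2))
    simp at a1 a2 a3 a4
    exact Prod.ext (by simp; linarith) (by simp; linarith)
  -- choose representative
  have h1per : ∀ θ, h1 (θ + 2 * π) = h1 θ := by
    intro θ
    have e1 : HasDerivAt (fun t => h (t + 2 * π)) (h1 (θ + 2 * π)) θ := by
      have := (d1 (θ + 2 * π)).comp_add_const θ (2 * π)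
      exact this
    have e2 : (fun t => h (t + 2 * π)) = h := funext per
    rw [e2] at e1
    exact e1.unique (d1 θ)
  by_cases hend : φ0 = 2 * π
  · refine ⟨(r, 0), ⟨⟨hr0, hr1⟩, ⟨le_refl _, by positivity⟩⟩, ?_⟩
    have e1 : h 0 = h φ0 := by rw [hend]; have := per 0; rw [zero_add] at this; exact this.symm
    have e2 : h1 0 = h1 φ0 := by
      rw [hend]; have := h1per 0; rw [zero_add] at this; exact this.symm
    ext
    · simp only [F]
      rw [hy1, e1, e2, hend]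
      simp
    · simp only [F]
      rw [hy2, e1, e2, hend]
      simp
  · refine ⟨(r, φ0), ⟨⟨hr0, hr1⟩, ⟨hφ0.1, lt_of_le_of_ne hφ0.2 hend⟩⟩, ?_⟩
    ext
    · simp only [F]; exact hy1.symm
    · simp only [F]; exact hy2.symm

theorem volume_image (h h1 h2 : ℝ → ℝ) (d1 : ∀ θ, HasDerivAt h (h1 θ) θ)
    (d2 : ∀ θ, HasDerivAt h1 (h2 θ) θ) (c2 : Continuous h2)
    (per : ∀ θ, h (θ + 2 * π) = h θ) (pos : ∀ θ, 0 < h θ) (conv : ∀ θ, 0 ≤ h θ + h2 θ)
    (c : ℝ) (hc : 0 < c)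
    (strict : ∀ θ φ, h θ * Real.cos (φ - θ) + h1 θ * Real.sin (φ - θ) +
      c * (1 - Real.cos (φ - θ)) ≤ h φ) :
    volume (F h h1 '' (Ioc 0 1 ×ˢ Ico 0 (2 * π))) =
      ENNReal.ofReal ((1 / 2) * ∫ θ in (0:ℝ)..(2 * π), (h θ ^ 2 - h1 θ ^ 2)) := by
  have ch : Continuous h := continuous_iff_continuousAt.mpr fun θ => (d1 θ).continuousAt
  have ch1 : Continuous h1 := continuous_iff_continuousAt.mpr fun θ => (d2 θ).continuousAt
  have h1per : ∀ θ, h1 (θ + 2 * π) = h1 θ := by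
    intro θ
    have e1 : HasDerivAt (fun t => h (t + 2 * π)) (h1 (θ + 2 * π)) θ := by
      have := (d1 (θ + 2 * π)).comp_add_const θ (2 * π)
      exact this
    have e2 : (fun t => h (t + 2 * π)) = h := funext per
    rw [e2] at e1
    exact e1.unique (d1 θ)
  have hms : MeasurableSet (Ioc (0:ℝ) 1 ×ˢ Ico (0:ℝ) (2 * π)) :=
    measurableSet_Ioc.prod measurableSet_Ico
  rw [← lintegral_abs_det_fderiv_eq_addHaar_image volume hms
    (fun x _ => (F_hasFDerivAt h h1 h2 d1 d2 x).hasFDerivWithinAt)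
    (F_inj h h1 pos c hc strict)]
  have e1 : ∀ x ∈ (Ioc (0:ℝ) 1 ×ˢ Ico (0:ℝ) (2 * π)),
      ENNReal.ofReal |(F' h h1 h2 x).det| =
        ENNReal.ofReal x.1 * ENNReal.ofReal (h x.2 * (h x.2 + h2 x.2)) := by
    rintro ⟨r, θ⟩ ⟨⟨hr0, hr1⟩, _⟩
    simp only at hr0 hr1
    rw [F'_det, abs_of_nonneg (mul_nonneg hr0.le (mul_nonneg (pos θ).le (conv θ))),
      ENNReal.ofReal_mul hr0.le]
  rw [setLIntegral_congr_fun hms e1, Measure.volume_eq_prod, ← Measure.prod_restrict,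
    lintegral_prod_mul (f := fun r => ENNReal.ofReal r)
      (g := fun θ => ENNReal.ofReal (h θ * (h θ + h2 θ)))
      (by fun_prop) (by fun_prop)]
  have e2 : ∫⁻ r in Ioc (0:ℝ) 1, ENNReal.ofReal r = ENNReal.ofReal (1 / 2) := by
    rw [← ofReal_integral_eq_lintegral_ofReal]
    · congr 1
      rw [← intervalIntegral.integral_of_le zero_le_one]
      simp
    · exact (continuous_id.integrableOn_Icc (a := (0:ℝ)) (b := 1)).mono_set Ioc_subset_Icc_self
    · rw [EventuallyLE, ae_restrict_iff' measurableSet_Ioc]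
      exact Filter.Eventually.of_forall fun r hr => hr.1.le
  have e3 : ∫⁻ θ in Ico (0:ℝ) (2 * π), ENNReal.ofReal (h θ * (h θ + h2 θ)) =
      ENNReal.ofReal (∫ θ in (0:ℝ)..(2 * π), h θ * (h θ + h2 θ)) := by
    rw [← ofReal_integral_eq_lintegral_ofReal]
    · congr 1
      rw [intervalIntegral.integral_of_le (by positivity), integral_Ico_eq_integral_Ioo,
        integral_Ioc_eq_integral_Ioo]
    · have hcc : Continuous fun θ => h θ * (h θ + h2 θ) := by fun_prop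
      exact (hcc.integrableOn_Icc (a := (0:ℝ)) (b := 2 * π)).mono_set Ico_subset_Icc_self
    · exact Filter.Eventually.of_forall fun θ => mul_nonneg (pos θ).le (conv θ)
  rw [e2, e3, ← ENNReal.ofReal_mul (by norm_num)]
  congr 2
  -- integration by parts
  have e4 : ∫ θ in (0:ℝ)..(2 * π), (h1 θ * h1 θ + h θ * h2 θ) = 0 := by
    have hd : ∀ θ ∈ uIcc (0:ℝ) (2 * π), HasDerivAt (fun θ => h θ * h1 θ)
        (h1 θ * h1 θ + h θ * h2 θ) θ := fun θ _ => (d1 θ).mul (d2 θ)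
    rw [intervalIntegral.integral_eq_sub_of_hasDerivAt hd]
    · have a1 := per 0
      have a2 := h1per 0
      rw [zero_add] at a1 a2
      rw [a1, a2, sub_self]
    · apply Continuous.intervalIntegrable
      fun_prop
  have e5 : ∫ θ in (0:ℝ)..(2 * π), h θ * (h θ + h2 θ) =
      (∫ θ in (0:ℝ)..(2 * π), (h θ ^ 2 - h1 θ ^ 2)) +
        ∫ θ in (0:ℝ)..(2 * π), (h1 θ * h1 θ + h θ * h2 θ) := by
    rw [← intervalIntegral.integral_add]
    · congr 1
      ext θ
      ring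
    · apply Continuous.intervalIntegrable; fun_prop
    · apply Continuous.intervalIntegrable; fun_prop
  rw [e5, e4, add_zero]

/-- The area of a planar set squeezed between the boundary parametrisation and the Wulff shape. -/
theorem planar_area (h h1 h2 : ℝ → ℝ) (d1 : ∀ θ, HasDerivAt h (h1 θ) θ)
    (d2 : ∀ θ, HasDerivAt h1 (h2 θ) θ) (c2 : Continuous h2)
    (per : ∀ θ, h (θ + 2 * π) = h θ) (pos : ∀ θ, 0 < h θ) (conv : ∀ θ, 0 ≤ h θ + h2 θ)
    (c : ℝ) (hc : 0 < c)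
    (strict : ∀ θ φ, h θ * Real.cos (φ - θ) + h1 θ * Real.sin (φ - θ) +
      c * (1 - Real.cos (φ - θ)) ≤ h φ)
    (T : Set (ℝ × ℝ)) (hT1 : ∀ y ∈ T, ∀ φ, y.1 * Real.cos φ + y.2 * Real.sin φ ≤ h φ)
    (hT2 : ∀ r θ, 0 < r → r ≤ 1 → F h h1 (r, θ) ∈ T) :
    volume T = ENNReal.ofReal ((1 / 2) * ∫ θ in (0:ℝ)..(2 * π), (h θ ^ 2 - h1 θ ^ 2)) := by
  rw [← volume_image h h1 h2 d1 d2 c2 per pos conv c hc strict]
  apply le_antisymm
  · have : T ⊆ (F h h1 '' (Ioc 0 1 ×ˢ Ico 0 (2 * π))) ∪ {0} := by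
      intro y hy
      by_cases h0 : y = 0
      · right; exact h0
      · left; exact F_surj h h1 d1 per pos y (hT1 y hy) h0
    refine (measure_mono this).trans ((measure_union_le _ _).trans ?_)
    simp
  · apply measure_mono
    rintro _ ⟨⟨r, θ⟩, ⟨⟨hr0, hr1⟩, _⟩, rfl⟩
    exact hT2 r θ hr0 hr1

end Pool.Agent.H892R2.Proj
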