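import Mathlib

set_option autoImplicit false

namespace Pool.Agent.H892R2.Proj

/-- real part of `(X + iY)^3` -/
def oo (X Y : ℝ) : ℝ := X ^ 3 - 3 * X * Y ^ 2

/-- the even correction -/
noncomputable def DD (X Y : ℝ) : ℝ := (5 * (oo X Y) ^ 2 + 15 * (X ^ 2 + Y ^ 2) ^ 2 + 3 * (X ^ 2 + Y ^ 2) - 4) / 25

/-- derivative of `oo` at `(X,Y)` in direction `(a,b)` -/
def Do (X Y a b : ℝ) : ℝ := 3 * (X ^ 2 - Y ^ 2) * a - 6 * X * Y * b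

/-- derivative of `DD` -/
noncomputable def Dd (X Y a b : ℝ) : ℝ :=
  (10 * oo X Y * Do X Y a b + 60 * (X ^ 2 + Y ^ 2) * (X * a + Y * b) + 6 * (X * a + Y * b)) / 25

/-- second derivative of `oo` -/
def D2o (X Y a b : ℝ) : ℝ := 6 * X * (a ^ 2 - b ^ 2) - 12 * Y * a * b

/-- second derivative of `DD` -/
noncomputable def D2d (X Y a b : ℝ) : ℝ :=
  (10 * (Do X Y a b) ^ 2 + 10 * oo X Y * D2o X Y a b + 120 * (X * a + Y * b) ^ 2 +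
    60 * (X ^ 2 + Y ^ 2) * (a ^ 2 + b ^ 2) + 6 * (a ^ 2 + b ^ 2)) / 25

/-- the perturbation -/
noncomputable def PP (σ τ X Y : ℝ) : ℝ := σ * oo X Y + τ * DD X Y

noncomputable def DP (σ τ X Y a b : ℝ) : ℝ := σ * Do X Y a b + τ * Dd X Y a b

noncomputable def D2P (σ τ X Y a b : ℝ) : ℝ := σ * D2o X Y a b + τ * D2d X Y a b

theorem abs_le_of_sq {x y : ℝ} (hy : 0 ≤ y) (h : x ^ 2 ≤ y ^ 2) : |x| ≤ y :=
  abs_le_of_sq_le_sq h hy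

theorem oo_sq (X Y : ℝ) : (oo X Y) ^ 2 ≤ (X ^ 2 + Y ^ 2) ^ 3 := by
  unfold oo
  nlinarith [sq_nonneg (3 * X ^ 2 * Y - Y ^ 3)]

theorem oo_abs {X Y : ℝ} (h : X ^ 2 + Y ^ 2 ≤ 1) : |oo X Y| ≤ 1 := by
  apply abs_le_of_sq zero_le_one
  have h1 := oo_sq X Y
  have h2 : (X ^ 2 + Y ^ 2) ^ 3 ≤ 1 := pow_le_one₀ (by positivity) h
  linarith

theorem Do_sq (X Y a b : ℝ) : (Do X Y a b) ^ 2 ≤ 9 * (X ^ 2 + Y ^ 2) ^ 2 * (a ^ 2 + b ^ 2) := by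
  unfold Do
  nlinarith [sq_nonneg (3 * (X ^ 2 - Y ^ 2) * b + 6 * X * Y * a)]

theorem D2o_sq (X Y a b : ℝ) : (D2o X Y a b) ^ 2 ≤ 36 * (X ^ 2 + Y ^ 2) * (a ^ 2 + b ^ 2) ^ 2 := by
  unfold D2o
  nlinarith [sq_nonneg (6 * X * (2 * a * b) + 6 * Y * (a ^ 2 - b ^ 2))]

theorem D2o_abs {X Y : ℝ} (h : X ^ 2 + Y ^ 2 ≤ 1) (a b : ℝ) : |D2o X Y a b| ≤ 6 * (a ^ 2 + b ^ 2) := by
  apply abs_le_of_sq (by positivity)
  have h1 := D2o_sq X Y a b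
  have h2 : 0 ≤ (a ^ 2 + b ^ 2) ^ 2 := by positivity
  nlinarith

/-- `h + h''` stays away from zero -/
theorem conv_bound {σ τ X Y a b : ℝ} (hσ : |σ| ≤ 1 / 100) (hτ : |τ| ≤ 1 / 1000)
    (h : X ^ 2 + Y ^ 2 ≤ 1) (hab : a ^ 2 + b ^ 2 ≤ 1) :
    0 ≤ 1 + PP σ τ X Y + (D2P σ τ X Y a b - DP σ τ X Y X Y) := by
  have h1 := abs_le.mp (oo_abs h)
  have h2 := abs_le.mp (D2o_abs h a b)
  have hB : 0 ≤ X ^ 2 + Y ^ 2 := by positivity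
  have hN : 0 ≤ a ^ 2 + b ^ 2 := by positivity
  have hDoz : Do X Y X Y = 3 * oo X Y := by unfold Do oo; ring
  have hDo : (Do X Y a b) ^ 2 ≤ 9 := by
    have := Do_sq X Y a b
    have h3 : (X ^ 2 + Y ^ 2) ^ 2 ≤ 1 := pow_le_one₀ hB h
    nlinarith
  have ho2 : (oo X Y) ^ 2 ≤ 1 := by nlinarith
  have e1 : 1 + PP σ τ X Y + (D2P σ τ X Y a b - DP σ τ X Y X Y) =
      1 + σ * (D2o X Y a b - 2 * oo X Y) + τ * (D2d X Y a b + DD X Y - Dd X Y X Y) := by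
    unfold PP D2P DP; rw [hDoz]; ring
  have b1 : |D2o X Y a b - 2 * oo X Y| ≤ 8 := by
    rw [abs_le]; constructor <;> nlinarith
  have hcross : (X * a + Y * b) ^ 2 ≤ 1 := by
    nlinarith [sq_nonneg (X * b - Y * a)]
  have b2 : |D2d X Y a b + DD X Y - Dd X Y X Y| ≤ 100 := by
    have hm : |oo X Y * D2o X Y a b| ≤ 6 := by
      rw [abs_mul]
      have := oo_abs h
      have h4 := D2o_abs h a b
      calc |oo X Y| * |D2o X Y a b| ≤ 1 * (6 * (a ^ 2 + b ^ 2)) := by gcongr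
        _ ≤ 6 := by linarith
    have hm' := abs_le.mp hm
    have hDdz : Dd X Y X Y = (30 * (oo X Y) ^ 2 + 60 * (X ^ 2 + Y ^ 2) ^ 2 + 6 * (X ^ 2 + Y ^ 2)) / 25 := by
      unfold Dd; rw [hDoz]; ring
    rw [hDdz]
    unfold D2d DD
    have hb2 : (X ^ 2 + Y ^ 2) ^ 2 ≤ 1 := pow_le_one₀ hB h
    have hb3 : (X ^ 2 + Y ^ 2) * (a ^ 2 + b ^ 2) ≤ 1 := by nlinarith
    have hb4 : 0 ≤ (X ^ 2 + Y ^ 2) * (a ^ 2 + b ^ 2) := by positivity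
    have hb5 : 0 ≤ (X ^ 2 + Y ^ 2) ^ 2 := by positivity
    have hb6 : 0 ≤ (Do X Y a b) ^ 2 := by positivity
    have hb7 : 0 ≤ (X * a + Y * b) ^ 2 := by positivity
    have hb8 : 0 ≤ (oo X Y) ^ 2 := by positivity
    rw [abs_le]
    constructor <;> nlinarith
  have c1 : |σ * (D2o X Y a b - 2 * oo X Y)| ≤ 1 / 100 * 8 := by
    rw [abs_mul]; gcongr
  have c2 : |τ * (D2d X Y a b + DD X Y - Dd X Y X Y)| ≤ 1 / 1000 * 100 := by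
    rw [abs_mul]; gcongr
  have c3 := abs_le.mp c1
  have c4 := abs_le.mp c2
  rw [e1]
  linarith [c3.1, c4.1]

theorem PP_bound {σ τ X Y : ℝ} (hσ : |σ| ≤ 1 / 100) (hτ : |τ| ≤ 1 / 1000)
    (h : X ^ 2 + Y ^ 2 ≤ 1) : |PP σ τ X Y| ≤ 1 / 10 := by
  have h1 := oo_abs h
  have hB : 0 ≤ X ^ 2 + Y ^ 2 := by positivity
  have hb2 : (X ^ 2 + Y ^ 2) ^ 2 ≤ 1 := pow_le_one₀ hB h
  have hb5 : 0 ≤ (X ^ 2 + Y ^ 2) ^ 2 := by positivity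
  have hb8 : 0 ≤ (oo X Y) ^ 2 := by positivity
  have ho2 : (oo X Y) ^ 2 ≤ 1 := by
    have := abs_le.mp h1
    nlinarith
  have h2 : |DD X Y| ≤ 2 := by
    unfold DD
    rw [abs_le]
    constructor <;> nlinarith
  unfold PP
  calc |σ * oo X Y + τ * DD X Y| ≤ |σ * oo X Y| + |τ * DD X Y| := abs_add_le _ _
    _ ≤ 1 / 100 * 1 + 1 / 1000 * 2 := by
        rw [abs_mul, abs_mul]; gcongr
    _ ≤ 1 / 10 := by norm_num

/-- The remainder of `oo`. -/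
theorem rem_o {X Y X' Y' : ℝ} (h : X ^ 2 + Y ^ 2 ≤ 1) (h' : X' ^ 2 + Y' ^ 2 ≤ 1) :
    |oo X' Y' - oo X Y - Do X Y (X' - X) (Y' - Y)| ≤ 3 * ((X' - X) ^ 2 + (Y' - Y) ^ 2) := by
  apply abs_le_of_sq (by positivity)
  have e : oo X' Y' - oo X Y - Do X Y (X' - X) (Y' - Y) =
      ((X' - X) ^ 2 - (Y' - Y) ^ 2) * (X' + 2 * X) - 2 * (X' - X) * (Y' - Y) * (Y' + 2 * Y) := by
    unfold oo Do; ring
  have hm : (X' + 2 * X) ^ 2 + (Y' + 2 * Y) ^ 2 ≤ 9 := by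
    nlinarith [sq_nonneg (X - X'), sq_nonneg (Y - Y')]
  rw [e]
  set p := X' - X
  set q := Y' - Y
  set A := X' + 2 * X
  set B := Y' + 2 * Y
  have hCS : ((p ^ 2 - q ^ 2) * A - 2 * p * q * B) ^ 2 ≤ (p ^ 2 + q ^ 2) ^ 2 * (A ^ 2 + B ^ 2) := by
    nlinarith [sq_nonneg ((p ^ 2 - q ^ 2) * B + 2 * p * q * A)]
  have hN : 0 ≤ (p ^ 2 + q ^ 2) ^ 2 := by positivity
  nlinarith

theorem rem_d {X Y X' Y' : ℝ} (h : X ^ 2 + Y ^ 2 ≤ 1) (h' : X' ^ 2 + Y' ^ 2 ≤ 1) :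
    |DD X' Y' - DD X Y - Dd X Y (X' - X) (Y' - Y)| ≤ 40 * ((X' - X) ^ 2 + (Y' - Y) ^ 2) := by
  set N := (X' - X) ^ 2 + (Y' - Y) ^ 2 with hN
  have hN0 : 0 ≤ N := by positivity
  have ho := abs_le.mp (rem_o h h')
  set Q := oo X' Y' - oo X Y - Do X Y (X' - X) (Y' - Y) with hQ
  have hoa := abs_le.mp (oo_abs h)
  have hDo : (Do X Y (X' - X) (Y' - Y)) ^ 2 ≤ 9 * N := by
    have := Do_sq X Y (X' - X) (Y' - Y)
    have hB : 0 ≤ X ^ 2 + Y ^ 2 := by positivity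
    have h3 : (X ^ 2 + Y ^ 2) ^ 2 ≤ 1 := pow_le_one₀ hB h
    nlinarith
  have hN4 : N ≤ 4 := by nlinarith [sq_nonneg (X' + X), sq_nonneg (Y' + Y)]
  -- difference of oo
  have hdiff : (oo X' Y' - oo X Y) ^ 2 ≤ 162 * N := by
    have e : oo X' Y' - oo X Y = Q + Do X Y (X' - X) (Y' - Y) := by rw [hQ]; ring
    rw [e]
    have hQ2 : Q ^ 2 ≤ 36 * N := by
      have : Q ^ 2 ≤ (3 * N) ^ 2 := sq_le_sq' (by linarith [ho.1]) ho.2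
      nlinarith
    nlinarith [sq_nonneg (Q - Do X Y (X' - X) (Y' - Y))]
  set β := (X' ^ 2 + Y' ^ 2) - (X ^ 2 + Y ^ 2) with hβ
  have hβ2 : β ^ 2 ≤ 4 * N := by
    have e : β = (X' - X) * (X' + X) + (Y' - Y) * (Y' + Y) := by rw [hβ]; ring
    have h4 : (X' + X) ^ 2 + (Y' + Y) ^ 2 ≤ 4 := by
      nlinarith [sq_nonneg (X' - X), sq_nonneg (Y' - Y)]
    rw [e, hN]
    nlinarith [sq_nonneg ((X' - X) * (Y' + Y) - (Y' - Y) * (X' + X)),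
      mul_nonneg hN0 (by linarith : 0 ≤ 4 - ((X' + X) ^ 2 + (Y' + Y) ^ 2))]
  have key : DD X' Y' - DD X Y - Dd X Y (X' - X) (Y' - Y) =
      (5 * (oo X' Y' - oo X Y) ^ 2 + 10 * oo X Y * Q + 15 * β ^ 2 +
        30 * (X ^ 2 + Y ^ 2) * N + 3 * N) / 25 := by
    unfold DD Dd
    rw [hQ, hβ, hN]
    ring
  rw [key]
  have hB0 : 0 ≤ X ^ 2 + Y ^ 2 := by positivity
  have h5 : (X ^ 2 + Y ^ 2) * N ≤ N := by nlinarith
  have h6 : 0 ≤ (X ^ 2 + Y ^ 2) * N := by positivity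
  have h7 : |oo X Y * Q| ≤ 3 * N := by
    rw [abs_mul]
    calc |oo X Y| * |Q| ≤ 1 * (3 * N) := by
          gcongr
          · exact oo_abs h
          · exact rem_o h h'
      _ = 3 * N := by ring
  have h8 := abs_le.mp h7
  have h9 := sq_nonneg (oo X' Y' - oo X Y)
  have h10 := sq_nonneg β
  rw [abs_le]
  constructor
  · linarith [h8.1]
  · linarith [h8.2]

/-- the strict support inequality -/
theorem support_ineq {σ τ X Y X' Y' s : ℝ} (hσ : |σ| ≤ 1 / 100) (hτ : |τ| ≤ 1 / 1000)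
    (h : X ^ 2 + Y ^ 2 ≤ 1) (h' : X' ^ 2 + Y' ^ 2 ≤ 1)
    (hs : (X' - X) ^ 2 + (Y' - Y) ^ 2 ≤ 2 * (1 - s)) :
    (1 + PP σ τ X Y - DP σ τ X Y X Y) * s + DP σ τ X Y X' Y' + 1 / 4 * (1 - s) ≤
      1 + PP σ τ X' Y' := by
  have h1 := rem_o h h'
  have h2 := rem_d h h'
  set N := (X' - X) ^ 2 + (Y' - Y) ^ 2 with hN
  have hN0 : 0 ≤ N := by positivity
  have hDoz : Do X Y X Y = 3 * oo X Y := by unfold Do oo; ring
  have hDdz : Dd X Y X Y = (30 * (oo X Y) ^ 2 + 60 * (X ^ 2 + Y ^ 2) ^ 2 + 6 * (X ^ 2 + Y ^ 2)) / 25 := by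
    unfold Dd; rw [hDoz]; ring
  set Qo := oo X' Y' - oo X Y - Do X Y (X' - X) (Y' - Y) with hQo
  set Qd := DD X' Y' - DD X Y - Dd X Y (X' - X) (Y' - Y) with hQd
  have e : 1 + PP σ τ X' Y' - ((1 + PP σ τ X Y - DP σ τ X Y X Y) * s + DP σ τ X Y X' Y') =
      (1 - s) + (σ * Qo + τ * Qd) + (σ * (-2 * oo X Y) + τ * (DD X Y - Dd X Y X Y)) * (1 - s) := by
    have l1 : DP σ τ X Y X' Y' = DP σ τ X Y X Y + (σ * Do X Y (X' - X) (Y' - Y) +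
        τ * Dd X Y (X' - X) (Y' - Y)) := by
      unfold DP Dd Do; ring
    rw [l1]
    unfold DP PP
    rw [hQo, hQd, hDoz]
    ring
  have hs1 : 0 ≤ 1 - s := by linarith
  have c1 : |σ * Qo + τ * Qd| ≤ 1 / 5 * (1 - s) := by
    calc |σ * Qo + τ * Qd| ≤ |σ * Qo| + |τ * Qd| := abs_add_le _ _
      _ ≤ 1 / 100 * (3 * N) + 1 / 1000 * (40 * N) := by
          rw [abs_mul, abs_mul]; gcongr
      _ ≤ 1 / 5 * (1 - s) := by linarith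
  have hoa := oo_abs h
  have hB : 0 ≤ X ^ 2 + Y ^ 2 := by positivity
  have hb2 : (X ^ 2 + Y ^ 2) ^ 2 ≤ 1 := pow_le_one₀ hB h
  have hb5 : 0 ≤ (X ^ 2 + Y ^ 2) ^ 2 := by positivity
  have hb8 : 0 ≤ (oo X Y) ^ 2 := by positivity
  have ho2 : (oo X Y) ^ 2 ≤ 1 := by
    have := abs_le.mp hoa
    nlinarith
  have c2 : |DD X Y - Dd X Y X Y| ≤ 10 := by
    rw [hDdz]
    unfold DD
    rw [abs_le]
    constructor <;> nlinarith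
  have c3 : |-2 * oo X Y| ≤ 2 := by
    rw [abs_mul]
    have : |(-2:ℝ)| = 2 := by norm_num
    rw [this]; linarith
  have c4 : |σ * (-2 * oo X Y) + τ * (DD X Y - Dd X Y X Y)| ≤ 1 / 10 := by
    calc _ ≤ |σ * (-2 * oo X Y)| + |τ * (DD X Y - Dd X Y X Y)| := abs_add_le _ _
      _ = |σ| * |-2 * oo X Y| + |τ| * |DD X Y - Dd X Y X Y| := by rw [abs_mul σ, abs_mul τ]
      _ ≤ 1 / 100 * 2 + 1 / 1000 * 10 := by gcongr
      _ ≤ 1 / 10 := by norm_num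
  have c5 := (abs_le.mp c1).1
  have c6 := (abs_le.mp c4).1
  have c7 : -(1 / 10) * (1 - s) ≤ (σ * (-2 * oo X Y) + τ * (DD X Y - Dd X Y X Y)) * (1 - s) := by
    apply mul_le_mul_of_nonneg_right c6 hs1
  linarith

end Pool.Agent.H892R2.Proj
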