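import Mathlib
import Pool.Agent.H892R2.Proj.Planar
import Pool.Agent.H892R2.Proj.PolyB
import Pool.Agent.H892R2.Proj.Defs

set_option autoImplicit false

open Set MeasureTheory Filter Topology
open scoped ENNReal Real RealInnerProductSpace

namespace Pool.Agent.H892R2.Proj

/-- the Wulff shape with support function `1 + PP` -/
def body (σ τ : ℝ) : Set (E 4) :=
  {x | ∀ v : E 4, ‖v‖ = 1 → ⟪v, x⟫ ≤ 1 + PP σ τ (v 0) (v 1)}

theorem norm_sq4 (v : E 4) : ‖v‖ ^ 2 = v 0 ^ 2 + v 1 ^ 2 + v 2 ^ 2 + v 3 ^ 2 := by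
  rw [EuclideanSpace.norm_sq_eq, Fin.sum_univ_four]
  simp only [Real.norm_eq_abs, sq_abs]

theorem inner4 (v w : E 4) : ⟪v, w⟫ = v 0 * w 0 + v 1 * w 1 + v 2 * w 2 + v 3 * w 3 := by
  rw [PiLp.inner_apply, Fin.sum_univ_four]
  simp [mul_comm]

theorem le_one_of_norm {v : E 4} (hv : ‖v‖ = 1) : v 0 ^ 2 + v 1 ^ 2 ≤ 1 := by
  have := norm_sq4 v
  rw [hv] at this
  nlinarith [sq_nonneg (v 2), sq_nonneg (v 3)]

theorem body_closed (σ τ : ℝ) : IsClosed (body σ τ) := by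
  have : body σ τ = ⋂ v : E 4, ⋂ (_ : ‖v‖ = 1), {x | ⟪v, x⟫ ≤ 1 + PP σ τ (v 0) (v 1)} := by
    ext x; simp [body]
  rw [this]
  exact isClosed_iInter fun v => isClosed_iInter fun _ => isClosed_le (by fun_prop) (by fun_prop)

theorem body_convex (σ τ : ℝ) : Convex ℝ (body σ τ) := by
  intro x hx y hy a b ha hb hab v hv
  rw [inner_add_right, inner_smul_right, inner_smul_right]
  have h1 := hx v hv
  have h2 := hy v hv
  calc a * ⟪v, x⟫ + b * ⟪v, y⟫ ≤ a * (1 + PP σ τ (v 0) (v 1)) + b * (1 + PP σ τ (v 0) (v 1)) := by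
        gcongr
    _ = _ := by rw [← add_mul, hab, one_mul]

theorem body_bdd {σ τ : ℝ} (hσ : |σ| ≤ 1 / 100) (hτ : |τ| ≤ 1 / 1000) :
    Bornology.IsBounded (body σ τ) := by
  rw [Metric.isBounded_iff_subset_closedBall 0]
  refine ⟨2, fun x hx => ?_⟩
  rw [mem_closedBall_zero_iff]
  by_cases h0 : x = 0
  · rw [h0, norm_zero]; norm_num
  · have hn : 0 < ‖x‖ := norm_pos_iff.mpr h0
    have hv : ‖(‖x‖⁻¹ • x)‖ = 1 := by
      rw [norm_smul, norm_inv, norm_norm, inv_mul_cancel₀ hn.ne']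
    have h1 := hx _ hv
    rw [inner_smul_left, real_inner_self_eq_norm_sq] at h1
    have h2 := (abs_le.mp (PP_bound hσ hτ (le_one_of_norm hv))).2
    have h3 : ‖x‖⁻¹ * ‖x‖ ^ 2 = ‖x‖ := by field_simp
    simp only [conj_trivial] at h1
    rw [h3] at h1
    linarith

theorem body_compact {σ τ : ℝ} (hσ : |σ| ≤ 1 / 100) (hτ : |τ| ≤ 1 / 1000) :
    IsCompact (body σ τ) :=
  Metric.isCompact_of_isClosed_isBounded (body_closed σ τ) (body_bdd hσ hτ)

theorem zero_mem_body {σ τ : ℝ} (hσ : |σ| ≤ 1 / 100) (hτ : |τ| ≤ 1 / 1000) :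
    (0 : E 4) ∈ body σ τ := by
  intro v hv
  rw [inner_zero_right]
  have h2 := (abs_le.mp (PP_bound hσ hτ (le_one_of_norm hv))).1
  linarith

/-- the support point -/
noncomputable def XX (σ τ : ℝ) (v : E 4) : E 4 :=
  (1 + PP σ τ (v 0) (v 1) - DP σ τ (v 0) (v 1) (v 0) (v 1)) • v +
    WithLp.toLp 2 ![DP σ τ (v 0) (v 1) 1 0, DP σ τ (v 0) (v 1) 0 1, 0, 0]

theorem DP_lin (σ τ X Y a b : ℝ) : DP σ τ X Y a b = a * DP σ τ X Y 1 0 + b * DP σ τ X Y 0 1 := by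
  unfold DP Do Dd Do; ring

theorem inner_XX (σ τ : ℝ) (v w : E 4) : ⟪w, XX σ τ v⟫ =
    (1 + PP σ τ (v 0) (v 1) - DP σ τ (v 0) (v 1) (v 0) (v 1)) * ⟪v, w⟫ +
      DP σ τ (v 0) (v 1) (w 0) (w 1) := by
  unfold XX
  rw [inner_add_right, inner_smul_right, real_inner_comm w v, DP_lin σ τ (v 0) (v 1) (w 0) (w 1)]
  congr 1
  rw [inner4]
  simp

theorem XX_mem {σ τ : ℝ} (hσ : |σ| ≤ 1 / 100) (hτ : |τ| ≤ 1 / 1000) {v : E 4} (hv : ‖v‖ = 1) :
    XX σ τ v ∈ body σ τ := by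
  intro w hw
  rw [inner_XX]
  have h1 : (w 0 - v 0) ^ 2 + (w 1 - v 1) ^ 2 ≤ 2 * (1 - ⟪v, w⟫) := by
    have h2 := norm_sq4 v
    have h3 := norm_sq4 w
    rw [hv] at h2
    rw [hw] at h3
    rw [inner4]
    nlinarith [sq_nonneg (w 2 - v 2), sq_nonneg (w 3 - v 3)]
  have h4 := support_ineq hσ hτ (le_one_of_norm hv) (le_one_of_norm hw) h1
  have h5 : 0 ≤ 1 - ⟪v, w⟫ := by nlinarith [sq_nonneg (w 0 - v 0), sq_nonneg (w 1 - v 1)]
  linarith

/-! ### the support function on a circle -/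

theorem hasDerivAt_oo {X Y : ℝ → ℝ} {a b t : ℝ} (hX : HasDerivAt X a t) (hY : HasDerivAt Y b t) :
    HasDerivAt (fun s => oo (X s) (Y s)) (Do (X t) (Y t) a b) t := by
  unfold oo Do
  have h := (hX.pow 3).sub ((hX.const_mul 3).mul (hY.pow 2))
  refine h.congr_deriv ?_
  simp only [Pi.pow_apply]
  push_cast
  ring

theorem hasDerivAt_DD {X Y : ℝ → ℝ} {a b t : ℝ} (hX : HasDerivAt X a t) (hY : HasDerivAt Y b t) :
    HasDerivAt (fun s => DD (X s) (Y s)) (Dd (X t) (Y t) a b) t := by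
  unfold DD Dd
  have ho := hasDerivAt_oo hX hY
  have hb := (hX.pow 2).add (hY.pow 2)
  have h := (((((ho.pow 2).const_mul 5).add ((hb.pow 2).const_mul 15)).add
    (hb.const_mul 3)).sub_const 4).div_const 25
  refine h.congr_deriv ?_
  simp only [Pi.pow_apply, Pi.add_apply]
  push_cast
  ring

theorem hasDerivAt_PP (σ τ : ℝ) {X Y : ℝ → ℝ} {a b t : ℝ} (hX : HasDerivAt X a t)
    (hY : HasDerivAt Y b t) :
    HasDerivAt (fun s => PP σ τ (X s) (Y s)) (DP σ τ (X t) (Y t) a b) t := by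
  unfold PP DP
  exact ((hasDerivAt_oo hX hY).const_mul σ).add ((hasDerivAt_DD hX hY).const_mul τ)

theorem hasDerivAt_DP (σ τ : ℝ) {X Y X' Y' : ℝ → ℝ} {c d t : ℝ}
    (hX : HasDerivAt X (X' t) t) (hY : HasDerivAt Y (Y' t) t)
    (hX' : HasDerivAt X' c t) (hY' : HasDerivAt Y' d t) :
    HasDerivAt (fun s => DP σ τ (X s) (Y s) (X' s) (Y' s))
      (D2P σ τ (X t) (Y t) (X' t) (Y' t) + DP σ τ (X t) (Y t) c d) t := by
  have ho := hasDerivAt_oo hX hY
  have hDo : HasDerivAt (fun s => Do (X s) (Y s) (X' s) (Y' s))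
      (D2o (X t) (Y t) (X' t) (Y' t) + Do (X t) (Y t) c d) t := by
    unfold Do D2o
    have h := ((((hX.pow 2).sub (hY.pow 2)).const_mul 3).mul hX').sub
      (((hX.const_mul 6).mul hY).mul hY')
    refine h.congr_deriv ?_
    simp only [Pi.pow_apply, Pi.sub_apply, Pi.mul_apply]
    push_cast
    ring
  have hDd : HasDerivAt (fun s => Dd (X s) (Y s) (X' s) (Y' s))
      (D2d (X t) (Y t) (X' t) (Y' t) + Dd (X t) (Y t) c d) t := by
    unfold Dd D2d
    have h1 := (ho.const_mul 10).mul hDo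
    have hb := (hX.pow 2).add (hY.pow 2)
    have hc := (hX.mul hX').add (hY.mul hY')
    have h2 := (hb.const_mul 60).mul hc
    have h := ((h1.add h2).add (hc.const_mul 6)).div_const 25
    refine h.congr_deriv ?_
    simp only [Pi.pow_apply, Pi.add_apply, Pi.mul_apply]
    push_cast
    ring
  unfold DP D2P
  refine ((hDo.const_mul σ).add (hDd.const_mul τ)).congr_deriv ?_
  ring

/-- a coordinate along the circle spanned by `p,q` -/
noncomputable def cz (a b θ : ℝ) : ℝ := a * Real.cos θ + b * Real.sin θ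

theorem cz_deriv (a b θ : ℝ) : HasDerivAt (cz a b) (cz b (-a) θ) θ := by
  unfold cz
  refine (((Real.hasDerivAt_cos θ).const_mul a).add
    ((Real.hasDerivAt_sin θ).const_mul b)).congr_deriv ?_
  ring

/-- support function on the circle spanned by an orthonormal pair -/
noncomputable def hh (σ τ p0 p1 q0 q1 θ : ℝ) : ℝ := 1 + PP σ τ (cz p0 q0 θ) (cz p1 q1 θ)

noncomputable def hh1 (σ τ p0 p1 q0 q1 θ : ℝ) : ℝ :=
  DP σ τ (cz p0 q0 θ) (cz p1 q1 θ) (cz q0 (-p0) θ) (cz q1 (-p1) θ)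

noncomputable def hh2 (σ τ p0 p1 q0 q1 θ : ℝ) : ℝ :=
  D2P σ τ (cz p0 q0 θ) (cz p1 q1 θ) (cz q0 (-p0) θ) (cz q1 (-p1) θ) +
    DP σ τ (cz p0 q0 θ) (cz p1 q1 θ) (cz (-p0) (-q0) θ) (cz (-p1) (-q1) θ)

/-- the area functional -/
noncomputable def areaF (σ τ p0 p1 q0 q1 : ℝ) : ℝ :=
  (1 / 2) * ∫ θ in (0:ℝ)..(2 * π), ((hh σ τ p0 p1 q0 q1 θ) ^ 2 - (hh1 σ τ p0 p1 q0 q1 θ) ^ 2)

theorem circle_vec {p q : E 4} (hp : ‖p‖ = 1) (hq : ‖q‖ = 1) (hpq : ⟪p, q⟫ = 0) (θ : ℝ) :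
    ‖Real.cos θ • p + Real.sin θ • q‖ = 1 := by
  have h : ‖Real.cos θ • p + Real.sin θ • q‖ ^ 2 = 1 := by
    rw [norm_add_sq_real, norm_smul, norm_smul, hp, hq, inner_smul_left, inner_smul_right, hpq]
    simp
  have h2 : 0 ≤ ‖Real.cos θ • p + Real.sin θ • q‖ := norm_nonneg _
  nlinarith

theorem shadow_area {σ τ : ℝ} (hσ : |σ| ≤ 1 / 100) (hτ : |τ| ≤ 1 / 1000) (p q : E 4)
    (hp : ‖p‖ = 1) (hq : ‖q‖ = 1) (hpq : ⟪p, q⟫ = 0) :
    volume ((fun x : E 4 => ((⟪p, x⟫, ⟪q, x⟫) : ℝ × ℝ)) '' body σ τ) =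
      ENNReal.ofReal (areaF σ τ (p 0) (p 1) (q 0) (q 1)) := by
  set v : ℝ → E 4 := fun θ => Real.cos θ • p + Real.sin θ • q with hv
  set v' : ℝ → E 4 := fun θ => (-Real.sin θ) • p + Real.cos θ • q with hv'
  have hvn : ∀ θ, ‖v θ‖ = 1 := circle_vec hp hq hpq
  have hvn' : ∀ θ, ‖v' θ‖ = 1 := by
    intro θ
    have := circle_vec hp hq hpq (θ + π / 2)
    rw [Real.cos_add_pi_div_two, Real.sin_add_pi_div_two] at this
    exact this
  have hv0 : ∀ θ, v θ 0 = cz (p 0) (q 0) θ := fun θ => by simp [hv, cz, mul_comm]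
  have hv1 : ∀ θ, v θ 1 = cz (p 1) (q 1) θ := fun θ => by simp [hv, cz, mul_comm]
  have hv0' : ∀ θ, v' θ 0 = cz (q 0) (-(p 0)) θ := fun θ => by
    simp only [hv', cz, PiLp.add_apply, PiLp.smul_apply, smul_eq_mul]; ring
  have hv1' : ∀ θ, v' θ 1 = cz (q 1) (-(p 1)) θ := fun θ => by
    simp only [hv', cz, PiLp.add_apply, PiLp.smul_apply, smul_eq_mul]; ring
  have hZ : ∀ θ, cz (p 0) (q 0) θ ^ 2 + cz (p 1) (q 1) θ ^ 2 ≤ 1 := fun θ => by
    rw [← hv0, ← hv1]; exact le_one_of_norm (hvn θ)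
  have hZ' : ∀ θ, cz (q 0) (-(p 0)) θ ^ 2 + cz (q 1) (-(p 1)) θ ^ 2 ≤ 1 := fun θ => by
    rw [← hv0', ← hv1']; exact le_one_of_norm (hvn' θ)
  have hvv : ∀ θ φ, ⟪v θ, v φ⟫ = Real.cos (φ - θ) := by
    intro θ φ
    simp only [hv, inner_add_left, inner_add_right, inner_smul_left, inner_smul_right,
      real_inner_self_eq_norm_sq, hp, hq, hpq, real_inner_comm p q]
    rw [Real.cos_sub]
    simp
  set H := hh σ τ (p 0) (p 1) (q 0) (q 1) with hH
  set H1 := hh1 σ τ (p 0) (p 1) (q 0) (q 1) with hH1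
  set H2 := hh2 σ τ (p 0) (p 1) (q 0) (q 1) with hH2
  have d1 : ∀ θ, HasDerivAt H (H1 θ) θ := fun θ =>
    (hasDerivAt_PP σ τ (cz_deriv (p 0) (q 0) θ) (cz_deriv (p 1) (q 1) θ)).const_add 1
  have d2 : ∀ θ, HasDerivAt H1 (H2 θ) θ := fun θ =>
    hasDerivAt_DP σ τ (cz_deriv (p 0) (q 0) θ) (cz_deriv (p 1) (q 1) θ)
      (cz_deriv (q 0) (-(p 0)) θ) (cz_deriv (q 1) (-(p 1)) θ)
  have c2 : Continuous H2 := by
    rw [hH2]; unfold hh2 D2P DP D2o D2d Do Dd D2o Do oo cz; fun_prop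
  have per : ∀ θ, H (θ + 2 * π) = H θ := by
    intro θ; simp only [hH, hh, cz, Real.cos_add_two_pi, Real.sin_add_two_pi]
  have pos : ∀ θ, 0 < H θ := by
    intro θ
    have := (abs_le.mp (PP_bound hσ hτ (hZ θ))).1
    simp only [hH, hh]
    linarith
  have conv : ∀ θ, 0 ≤ H θ + H2 θ := by
    intro θ
    have h1 := conv_bound hσ hτ (hZ θ) (hZ' θ)
    simp only [hH, hH2, hh, hh2]
    have h2 : DP σ τ (cz (p 0) (q 0) θ) (cz (p 1) (q 1) θ) (cz (-(p 0)) (-(q 0)) θ)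
        (cz (-(p 1)) (-(q 1)) θ) = -DP σ τ (cz (p 0) (q 0) θ) (cz (p 1) (q 1) θ)
        (cz (p 0) (q 0) θ) (cz (p 1) (q 1) θ) := by
      have e1 : ∀ a b, cz (-a) (-b) θ = -cz a b θ := fun a b => by unfold cz; ring
      rw [e1, e1]
      generalize cz (p 0) (q 0) θ = X
      generalize cz (p 1) (q 1) θ = Y
      rw [DP_lin, DP_lin σ τ X Y X Y]; ring
    rw [h2]
    linarith
  have strict : ∀ θ φ, H θ * Real.cos (φ - θ) + H1 θ * Real.sin (φ - θ) +
      1 / 4 * (1 - Real.cos (φ - θ)) ≤ H φ := by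
    intro θ φ
    have h1 : (cz (p 0) (q 0) φ - cz (p 0) (q 0) θ) ^ 2 + (cz (p 1) (q 1) φ - cz (p 1) (q 1) θ) ^ 2
        ≤ 2 * (1 - Real.cos (φ - θ)) := by
      rw [← hv0, ← hv0, ← hv1, ← hv1, ← hvv]
      have h2 := norm_sq4 (v θ)
      have h3 := norm_sq4 (v φ)
      rw [hvn] at h2 h3
      rw [inner4]
      nlinarith [sq_nonneg (v φ 2 - v θ 2), sq_nonneg (v φ 3 - v θ 3)]
    have h4 := support_ineq hσ hτ (hZ θ) (hZ φ) h1
    have e1 : ∀ a b, cz a b φ = Real.cos (φ - θ) * cz a b θ + Real.sin (φ - θ) * cz b (-a) θ := by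
      intro a b
      unfold cz
      rw [Real.cos_sub, Real.sin_sub]
      have := Real.cos_sq_add_sin_sq θ
      linear_combination (-(a * Real.cos φ + b * Real.sin φ)) * this
    have e2 : DP σ τ (cz (p 0) (q 0) θ) (cz (p 1) (q 1) θ) (cz (p 0) (q 0) φ) (cz (p 1) (q 1) φ) =
        Real.cos (φ - θ) * DP σ τ (cz (p 0) (q 0) θ) (cz (p 1) (q 1) θ)
          (cz (p 0) (q 0) θ) (cz (p 1) (q 1) θ) + Real.sin (φ - θ) * H1 θ := by
      simp only [hH1, hh1]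
      rw [e1 (p 0) (q 0), e1 (p 1) (q 1)]
      generalize cz (p 0) (q 0) θ = X
      generalize cz (p 1) (q 1) θ = Y
      rw [DP_lin, DP_lin σ τ X Y X Y, DP_lin σ τ X Y (cz (q 0) (-(p 0)) θ) (cz (q 1) (-(p 1)) θ)]
      ring
    rw [e2] at h4
    simp only [hH, hh] at *
    linarith
  unfold areaF
  apply planar_area H H1 H2 d1 d2 c2 per pos conv (1 / 4) (by norm_num) strict
  · rintro _ ⟨x, hx, rfl⟩ φ
    have h1 := hx (v φ) (hvn φ)
    rw [hv0, hv1] at h1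
    simp only [hv, inner_add_left, inner_smul_left] at h1
    simp only [conj_trivial] at h1
    simp only [hH, hh]
    linarith
  · intro r θ hr0 hr1
    refine ⟨r • XX σ τ (v θ), ?_, ?_⟩
    · have h1 := XX_mem hσ hτ (hvn θ)
      have h2 := (body_convex σ τ) (zero_mem_body hσ hτ) h1 (a := 1 - r) (b := r)
        (by linarith) hr0.le (by ring)
      rwa [smul_zero, zero_add] at h2
    · have ip : ⟪v θ, p⟫ = Real.cos θ := by
        simp only [hv, inner_add_left, inner_smul_left, real_inner_self_eq_norm_sq, hp,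
          real_inner_comm p q, hpq]
        simp
      have iq : ⟪v θ, q⟫ = Real.sin θ := by
        simp only [hv, inner_add_left, inner_smul_left, real_inner_self_eq_norm_sq, hq, hpq]
        simp
      have ep : ∀ a b : ℝ, a = Real.cos θ * cz a b θ - Real.sin θ * cz b (-a) θ := by
        intro a b; unfold cz
        have := Real.cos_sq_add_sin_sq θ
        linear_combination (-a) * this
      have eq' : ∀ a b : ℝ, b = Real.sin θ * cz a b θ + Real.cos θ * cz b (-a) θ := by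
        intro a b; unfold cz
        have := Real.cos_sq_add_sin_sq θ
        linear_combination (-b) * this
      have dp : DP σ τ (cz (p 0) (q 0) θ) (cz (p 1) (q 1) θ) (p 0) (p 1) =
          Real.cos θ * DP σ τ (cz (p 0) (q 0) θ) (cz (p 1) (q 1) θ)
          (cz (p 0) (q 0) θ) (cz (p 1) (q 1) θ) - Real.sin θ * H1 θ := by
        simp only [hH1, hh1]
        have a1 := ep (p 0) (q 0)
        have a2 := ep (p 1) (q 1)
        generalize cz (p 0) (q 0) θ = X at *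
        generalize cz (p 1) (q 1) θ = Y at *
        rw [DP_lin, DP_lin σ τ X Y X Y, DP_lin σ τ X Y (cz (q 0) (-(p 0)) θ) (cz (q 1) (-(p 1)) θ)]
        linear_combination (DP σ τ X Y 1 0) * a1 + (DP σ τ X Y 0 1) * a2
      have dq : DP σ τ (cz (p 0) (q 0) θ) (cz (p 1) (q 1) θ) (q 0) (q 1) =
          Real.sin θ * DP σ τ (cz (p 0) (q 0) θ) (cz (p 1) (q 1) θ)
          (cz (p 0) (q 0) θ) (cz (p 1) (q 1) θ) + Real.cos θ * H1 θ := by
        simp only [hH1, hh1]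
        have a1 := eq' (p 0) (q 0)
        have a2 := eq' (p 1) (q 1)
        generalize cz (p 0) (q 0) θ = X at *
        generalize cz (p 1) (q 1) θ = Y at *
        rw [DP_lin, DP_lin σ τ X Y X Y, DP_lin σ τ X Y (cz (q 0) (-(p 0)) θ) (cz (q 1) (-(p 1)) θ)]
        linear_combination (DP σ τ X Y 1 0) * a1 + (DP σ τ X Y 0 1) * a2
      simp only [F]
      rw [inner_smul_right, inner_smul_right, inner_XX, inner_XX, ip, iq, hv0, hv1, dp, dq]
      simp only [hH, hh]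
      ext <;> simp only <;> ring

end Pool.Agent.H892R2.Proj
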