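import Mathlib
import Pool.Agent.H892R2.Proj.Defs

set_option autoImplicit false

open Set MeasureTheory Filter Topology Module
open scoped ENNReal Real RealInnerProductSpace

namespace Pool.Agent.H892R2.Proj

/-- integration against the Haar probability measure on continuous functions -/
noncomputable def I (m : ℕ) (f : O m → ℝ) : ℝ := ∫ g, f g ∂(haarO m)

theorem integrable_cont {m : ℕ} {f : O m → ℝ} (hf : Continuous f) : Integrable f (haarO m) :=
  hf.integrable_of_hasCompactSupport (HasCompactSupport.of_compactSpace f)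

theorem right_inv {m : ℕ} (f : O m → ℝ) (g₀ : O m) : I m (fun g => f (g * g₀)) = I m f := by
  unfold I
  have h1 : (Measure.map (fun g => g * g₀) (haarO m)) = haarO m := by
    have : IsProbabilityMeasure (Measure.map (fun g => g * g₀) (haarO m)) :=
      Measure.isProbabilityMeasure_map (by fun_prop)
    exact Measure.isHaarMeasure_eq_of_isProbabilityMeasure _ _
  conv_rhs => rw [← h1]
  exact ((MeasurableEquiv.mulRight g₀).measurableEmbedding.integral_map f).symm

theorem left_inv {m : ℕ} (f : O m → ℝ) (g₀ : O m) : I m (fun g => f (g₀ * g)) = I m f := by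
  unfold I
  exact integral_mul_left_eq_self f g₀

theorem I_add {m : ℕ} {f g : O m → ℝ} (hf : Continuous f) (hg : Continuous g) :
    I m (fun x => f x + g x) = I m f + I m g :=
  integral_add (integrable_cont hf) (integrable_cont hg)

theorem I_mul {m : ℕ} (c : ℝ) (f : O m → ℝ) : I m (fun x => c * f x) = c * I m f :=
  integral_const_mul c f

theorem I_const {m : ℕ} (c : ℝ) : I m (fun _ => c) = c := by
  unfold I; simp

theorem col_sq {m : ℕ} (g : O m) (k l : Fin m) :
    ∑ i, g.1 i k * g.1 i l = if k = l then 1 else 0 := by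
  have h1 : (g.1.transpose * g.1) k l = if k = l then 1 else 0 := by
    have := (Matrix.mem_orthogonalGroup_iff' (Fin m) ℝ).1 g.2
    rw [this, Matrix.one_apply]
  rw [← h1, Matrix.mul_apply]
  rfl

theorem row_sq {m : ℕ} (g : O m) (k l : Fin m) :
    ∑ i, g.1 k i * g.1 l i = if k = l then 1 else 0 := by
  have h1 : (g.1 * g.1.transpose) k l = if k = l then 1 else 0 := by
    have := (Matrix.mem_orthogonalGroup_iff (Fin m) ℝ).1 g.2
    rw [this, Matrix.one_apply]
  rw [← h1, Matrix.mul_apply]
  rfl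

/-- the random linear form given by column `k` -/
def L (x : Fin 3 → ℝ) (k : Fin 3) (g : O 3) : ℝ := ∑ l, g.1 l k * x l

theorem entry_cont {m : ℕ} (l k : Fin m) : Continuous (fun g : O m => g.1 l k) :=
  continuous_subtype_val.matrix_elem l k

@[fun_prop]
theorem L_cont (x : Fin 3 → ℝ) (k : Fin 3) : Continuous (L x k) := by
  unfold L
  exact continuous_finsetSum _ fun l _ => (entry_cont l k).mul continuous_const

/-- existence of an orthogonal matrix with prescribed first column direction -/
theorem exists_rot (x : Fin 3 → ℝ) : ∃ k : O 3, ∀ g : O 3,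
    L x 0 (k * g) = √(∑ l, x l ^ 2) * g.1 0 0 := by
  by_cases h0 : x = 0
  · refine ⟨1, fun g => ?_⟩
    rw [h0]
    simp [L]
  set X : E 3 := WithLp.toLp 2 x with hX
  have hXn : ‖X‖ = √(∑ l, x l ^ 2) := by
    rw [EuclideanSpace.norm_eq]; simp [hX]
  have hX0 : X ≠ 0 := by
    intro h
    apply h0
    ext i
    have := congrArg (fun v : E 3 => v i) h
    simpa [hX] using this
  have hXp : 0 < ‖X‖ := norm_pos_iff.mpr hX0
  obtain ⟨b, hb⟩ := Orthonormal.exists_orthonormalBasis_extension_of_card_eq (𝕜 := ℝ) (E := E 3)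
    (ι := Fin 3) (by simp) (v := fun _ => ‖X‖⁻¹ • X) (s := {0}) (by
      rw [orthonormal_iff_ite]
      rintro ⟨i, hi⟩ ⟨j, hj⟩
      have hi' : i = 0 := hi
      have hj' : j = 0 := hj
      subst hi' hj'
      rw [if_pos rfl]
      simp only [Set.domRestrict_apply]
      rw [real_inner_self_eq_norm_sq, norm_smul, norm_inv, norm_norm,
        inv_mul_cancel₀ hXp.ne']
      norm_num)
  have hb0 : b 0 = ‖X‖⁻¹ • X := hb 0 rfl
  set M : Matrix (Fin 3) (Fin 3) ℝ := (EuclideanSpace.basisFun (Fin 3) ℝ).toBasis.toMatrix b with hM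
  have hMo : M ∈ Matrix.orthogonalGroup (Fin 3) ℝ :=
    OrthonormalBasis.toMatrix_orthonormalBasis_mem_orthogonal _ _
  have hMe : ∀ i j, M i j = (b j : E 3) i := by
    intro i j
    rw [hM, Basis.toMatrix_apply]
    simp
  refine ⟨⟨M, hMo⟩, fun g => ?_⟩
  have h1 : ∀ m : Fin 3, ∑ l, M l m * x l = if m = 0 then ‖X‖ else 0 := by
    intro m
    have h2 : ∑ l, M l m * x l = ⟪(b m : E 3), X⟫ := by
      rw [PiLp.inner_apply]
      refine Finset.sum_congr rfl fun l _ => ?_
      rw [hMe]
      simp [hX, mul_comm]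
    rw [h2]
    have h3 : X = ‖X‖ • (b 0 : E 3) := by
      rw [hb0, smul_smul, mul_inv_cancel₀ hXp.ne', one_smul]
    rw [h3, inner_smul_right, ← h3]
    have h4 := b.orthonormal
    rw [orthonormal_iff_ite] at h4
    rw [h4]
    split_ifs <;> simp
  unfold L
  have h5 : ∀ l, (((⟨M, hMo⟩ : O 3) * g : O 3).1 l 0) = ∑ m, M l m * g.1 m 0 := by
    intro l; rfl
  simp only [h5]
  calc ∑ l, (∑ m, M l m * g.1 m 0) * x l = ∑ m, g.1 m 0 * ∑ l, M l m * x l := by
        simp only [Finset.sum_mul, Finset.mul_sum]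
        rw [Finset.sum_comm]
        refine Finset.sum_congr rfl fun m _ => Finset.sum_congr rfl fun l _ => ?_
        ring
    _ = _ := by
        simp only [h1]
        rw [hXn]
        simp [mul_comm]

/-- the one-dimensional moments -/
noncomputable def mu (m : ℕ) : ℝ := I 3 (fun g => (g.1 0 0) ^ (2 * m))

theorem moment (x : Fin 3 → ℝ) (m : ℕ) :
    I 3 (fun g => (L x 0 g) ^ (2 * m)) = (∑ l, x l ^ 2) ^ m * mu m := by
  obtain ⟨k, hk⟩ := exists_rot x
  rw [← left_inv (fun g => (L x 0 g) ^ (2 * m)) k]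
  simp only [hk, mul_pow]
  rw [I_mul]
  unfold mu
  congr 1
  rw [pow_mul, Real.sq_sqrt (by positivity)]

end Pool.Agent.H892R2.Proj
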