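import Mathlib
import Pool.Agent.H892R2.Proj.Haar

set_option autoImplicit false

open Set MeasureTheory Filter Topology Module
open scoped ENNReal Real RealInnerProductSpace

namespace Pool.Agent.H892R2.Proj

theorem poly2 {a0 a1 a2 : ℝ} (h : ∀ t : ℝ, a0 + a1 * t + a2 * t ^ 2 = 0) :
    a0 = 0 ∧ a1 = 0 ∧ a2 = 0 := by
  have h0 := h 0
  have h1 := h 1
  have h2 := h (-1)
  norm_num at h0 h1 h2
  refine ⟨by linarith, by linarith, by linarith⟩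

theorem poly4 {a0 a1 a2 a3 a4 : ℝ}
    (h : ∀ t : ℝ, a0 + a1 * t + a2 * t ^ 2 + a3 * t ^ 3 + a4 * t ^ 4 = 0) :
    a0 = 0 ∧ a1 = 0 ∧ a2 = 0 ∧ a3 = 0 ∧ a4 = 0 := by
  have h0 := h 0
  have h1 := h 1
  have h2 := h (-1)
  have h3 := h 2
  have h4 := h (-2)
  norm_num at h0 h1 h2 h3 h4
  refine ⟨by linarith, by linarith, by linarith, by linarith, by linarith⟩

theorem poly6 {a0 a1 a2 a3 a4 a5 a6 : ℝ}
    (h : ∀ t : ℝ, a0 + a1 * t + a2 * t ^ 2 + a3 * t ^ 3 + a4 * t ^ 4 + a5 * t ^ 5 + a6 * t ^ 6 = 0) :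
    a0 = 0 ∧ a1 = 0 ∧ a2 = 0 ∧ a3 = 0 ∧ a4 = 0 ∧ a5 = 0 ∧ a6 = 0 := by
  have h0 := h 0
  have h1 := h 1
  have h2 := h (-1)
  have h3 := h 2
  have h4 := h (-2)
  have h5 := h 3
  have h6 := h (-3)
  norm_num at h0 h1 h2 h3 h4 h5 h6
  refine ⟨by linarith, by linarith, by linarith, by linarith, by linarith, by linarith,
    by linarith⟩

theorem L_add (x y : Fin 3 → ℝ) (t : ℝ) (k : Fin 3) (g : O 3) :
    L (fun l => x l + t * y l) k g = L x k g + t * L y k g := by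
  unfold L
  rw [Finset.mul_sum, ← Finset.sum_add_distrib]
  exact Finset.sum_congr rfl fun l _ => by ring

/-- mixed moments of the first column -/
noncomputable def ee (x y : Fin 3 → ℝ) (i j : ℕ) : ℝ := I 3 (fun g => (L x 0 g) ^ i * (L y 0 g) ^ j)

theorem sum_expand (x y : Fin 3 → ℝ) (t : ℝ) : ∑ l, (x l + t * y l) ^ 2 =
    ∑ l, x l ^ 2 + 2 * t * ∑ l, x l * y l + t ^ 2 * ∑ l, y l ^ 2 := by
  rw [Finset.mul_sum, Finset.mul_sum, ← Finset.sum_add_distrib, ← Finset.sum_add_distrib]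
  exact Finset.sum_congr rfl fun l _ => by ring

theorem mom2 (x y : Fin 3 → ℝ) :
    ee x y 2 0 = (∑ l, x l ^ 2) * mu 1 ∧ ee x y 1 1 = (∑ l, x l * y l) * mu 1 ∧
      ee x y 0 2 = (∑ l, y l ^ 2) * mu 1 := by
  have key : ∀ t : ℝ, (ee x y 2 0 - (∑ l, x l ^ 2) * mu 1) +
      (2 * ee x y 1 1 - 2 * (∑ l, x l * y l) * mu 1) * t +
      (ee x y 0 2 - (∑ l, y l ^ 2) * mu 1) * t ^ 2 = 0 := by
    intro t
    have h := moment (fun l => x l + t * y l) 1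
    rw [sum_expand] at h
    have e : (fun g => (L (fun l => x l + t * y l) 0 g) ^ (2 * 1)) = fun g =>
        (L x 0 g ^ 2 * L y 0 g ^ 0 + (2 * t) * (L x 0 g ^ 1 * L y 0 g ^ 1)) +
          t ^ 2 * (L x 0 g ^ 0 * L y 0 g ^ 2) := by
      ext g; rw [L_add]; ring
    rw [e, I_add (by fun_prop) (by fun_prop), I_add (by fun_prop) (by fun_prop), I_mul, I_mul] at h
    unfold ee
    linear_combination h
  obtain ⟨h0, h1, h2⟩ := poly2 key
  refine ⟨by linarith, by linarith, by linarith⟩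

theorem mom4 (x y : Fin 3 → ℝ) :
    ee x y 4 0 = (∑ l, x l ^ 2) ^ 2 * mu 2 ∧
    ee x y 3 1 = (∑ l, x l ^ 2) * (∑ l, x l * y l) * mu 2 ∧
    ee x y 2 2 = ((∑ l, x l ^ 2) * (∑ l, y l ^ 2) + 2 * (∑ l, x l * y l) ^ 2) / 3 * mu 2 ∧
    ee x y 1 3 = (∑ l, y l ^ 2) * (∑ l, x l * y l) * mu 2 ∧
    ee x y 0 4 = (∑ l, y l ^ 2) ^ 2 * mu 2 := by
  set A := ∑ l, x l ^ 2 with hA
  set B := ∑ l, x l * y l with hB
  set C := ∑ l, y l ^ 2 with hC
  have key : ∀ t : ℝ, (ee x y 4 0 - A ^ 2 * mu 2) + (4 * ee x y 3 1 - 4 * A * B * mu 2) * t +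
      (6 * ee x y 2 2 - (2 * A * C + 4 * B ^ 2) * mu 2) * t ^ 2 +
      (4 * ee x y 1 3 - 4 * B * C * mu 2) * t ^ 3 + (ee x y 0 4 - C ^ 2 * mu 2) * t ^ 4 = 0 := by
    intro t
    have h := moment (fun l => x l + t * y l) 2
    rw [sum_expand, ← hA, ← hB, ← hC] at h
    have e : (fun g => (L (fun l => x l + t * y l) 0 g) ^ (2 * 2)) = fun g =>
        (((L x 0 g ^ 4 * L y 0 g ^ 0 + (4 * t) * (L x 0 g ^ 3 * L y 0 g ^ 1)) +
          (6 * t ^ 2) * (L x 0 g ^ 2 * L y 0 g ^ 2)) +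
          (4 * t ^ 3) * (L x 0 g ^ 1 * L y 0 g ^ 3)) +
          t ^ 4 * (L x 0 g ^ 0 * L y 0 g ^ 4) := by
      ext g; rw [L_add]; ring
    rw [e, I_add (by fun_prop) (by fun_prop), I_add (by fun_prop) (by fun_prop),
      I_add (by fun_prop) (by fun_prop), I_add (by fun_prop) (by fun_prop),
      I_mul, I_mul, I_mul, I_mul] at h
    unfold ee
    linear_combination h
  obtain ⟨h0, h1, h2, h3, h4⟩ := poly4 key
  refine ⟨by linarith, by linarith, by linarith, by linarith, by linarith⟩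

theorem mom6 (x y : Fin 3 → ℝ) :
    ee x y 6 0 = (∑ l, x l ^ 2) ^ 3 * mu 3 ∧
    ee x y 5 1 = (∑ l, x l ^ 2) ^ 2 * (∑ l, x l * y l) * mu 3 ∧
    ee x y 4 2 = ((∑ l, x l ^ 2) ^ 2 * (∑ l, y l ^ 2) +
      4 * (∑ l, x l ^ 2) * (∑ l, x l * y l) ^ 2) / 5 * mu 3 ∧
    ee x y 3 3 = (3 * (∑ l, x l ^ 2) * (∑ l, x l * y l) * (∑ l, y l ^ 2) +
      2 * (∑ l, x l * y l) ^ 3) / 5 * mu 3 ∧
    ee x y 2 4 = ((∑ l, x l ^ 2) * (∑ l, y l ^ 2) ^ 2 +
      4 * (∑ l, x l * y l) ^ 2 * (∑ l, y l ^ 2)) / 5 * mu 3 ∧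
    ee x y 1 5 = (∑ l, y l ^ 2) ^ 2 * (∑ l, x l * y l) * mu 3 ∧
    ee x y 0 6 = (∑ l, y l ^ 2) ^ 3 * mu 3 := by
  set A := ∑ l, x l ^ 2 with hA
  set B := ∑ l, x l * y l with hB
  set C := ∑ l, y l ^ 2 with hC
  have key : ∀ t : ℝ, (ee x y 6 0 - A ^ 3 * mu 3) + (6 * ee x y 5 1 - 6 * A ^ 2 * B * mu 3) * t +
      (15 * ee x y 4 2 - (3 * A ^ 2 * C + 12 * A * B ^ 2) * mu 3) * t ^ 2 +
      (20 * ee x y 3 3 - (12 * A * B * C + 8 * B ^ 3) * mu 3) * t ^ 3 +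
      (15 * ee x y 2 4 - (3 * A * C ^ 2 + 12 * B ^ 2 * C) * mu 3) * t ^ 4 +
      (6 * ee x y 1 5 - 6 * B * C ^ 2 * mu 3) * t ^ 5 + (ee x y 0 6 - C ^ 3 * mu 3) * t ^ 6 = 0 := by
    intro t
    have h := moment (fun l => x l + t * y l) 3
    rw [sum_expand, ← hA, ← hB, ← hC] at h
    have e : (fun g => (L (fun l => x l + t * y l) 0 g) ^ (2 * 3)) = fun g =>
        (((((L x 0 g ^ 6 * L y 0 g ^ 0 + (6 * t) * (L x 0 g ^ 5 * L y 0 g ^ 1)) +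
          (15 * t ^ 2) * (L x 0 g ^ 4 * L y 0 g ^ 2)) +
          (20 * t ^ 3) * (L x 0 g ^ 3 * L y 0 g ^ 3)) +
          (15 * t ^ 4) * (L x 0 g ^ 2 * L y 0 g ^ 4)) +
          (6 * t ^ 5) * (L x 0 g ^ 1 * L y 0 g ^ 5)) +
          t ^ 6 * (L x 0 g ^ 0 * L y 0 g ^ 6) := by
      ext g; rw [L_add]; ring
    rw [e, I_add (by fun_prop) (by fun_prop), I_add (by fun_prop) (by fun_prop),
      I_add (by fun_prop) (by fun_prop), I_add (by fun_prop) (by fun_prop),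
      I_add (by fun_prop) (by fun_prop), I_add (by fun_prop) (by fun_prop),
      I_mul, I_mul, I_mul, I_mul, I_mul, I_mul] at h
    unfold ee
    linear_combination h
  obtain ⟨h0, h1, h2, h3, h4, h5, h6⟩ := poly6 key
  refine ⟨by linarith, by linarith, by linarith, by linarith, by linarith, by linarith,
    by linarith⟩

/-- coordinate vectors -/
def cv (i : Fin 3) : Fin 3 → ℝ := fun l => if l = i then 1 else 0

theorem L_cv (i : Fin 3) (k : Fin 3) (g : O 3) : L (cv i) k g = g.1 i k := by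
  unfold L cv; simp

theorem cv_sq (i : Fin 3) : ∑ l, (cv i l) ^ 2 = 1 := by unfold cv; simp

theorem cv_mul {i j : Fin 3} (h : i ≠ j) : ∑ l, cv i l * cv j l = 0 := by
  unfold cv; simp [h.symm]

theorem col0 (g : O 3) : L (cv 0) 0 g ^ 2 + L (cv 1) 0 g ^ 2 + L (cv 2) 0 g ^ 2 = 1 := by
  have h := col_sq g 0 0
  rw [Fin.sum_univ_three, if_pos rfl] at h
  rw [L_cv, L_cv, L_cv]
  linarith

theorem mu1 : mu 1 = 1 / 3 := by
  have h0 := (mom2 (cv 0) (cv 1)).1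
  have h1 := (mom2 (cv 0) (cv 1)).2.2
  have h2 := (mom2 (cv 0) (cv 2)).2.2
  rw [cv_sq, one_mul] at h0 h1 h2
  have h : I 3 (fun g => (L (cv 0) 0 g ^ 2 * L (cv 1) 0 g ^ 0 +
      L (cv 0) 0 g ^ 0 * L (cv 1) 0 g ^ 2) + L (cv 0) 0 g ^ 0 * L (cv 2) 0 g ^ 2) = 1 := by
    rw [← I_const (m := 3) 1]
    congr 1
    ext g
    have := col0 g
    linear_combination this
  rw [I_add (by fun_prop) (by fun_prop), I_add (by fun_prop) (by fun_prop)] at h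
  unfold ee at h0 h1 h2
  linarith

theorem mu2 : mu 2 = 1 / 5 := by
  have h0 := (mom4 (cv 0) (cv 1)).1
  have h1 := (mom4 (cv 0) (cv 1)).2.2.1
  have h2 := (mom4 (cv 0) (cv 2)).2.2.1
  rw [cv_sq] at h0
  rw [cv_sq, cv_sq, cv_mul (by decide)] at h1 h2
  have h : I 3 (fun g => (L (cv 0) 0 g ^ 4 * L (cv 1) 0 g ^ 0 +
      L (cv 0) 0 g ^ 2 * L (cv 1) 0 g ^ 2) + L (cv 0) 0 g ^ 2 * L (cv 2) 0 g ^ 2) = mu 1 := by
    have h3 := (mom2 (cv 0) (cv 1)).1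
    rw [cv_sq, one_mul] at h3
    rw [← h3]
    unfold ee
    congr 1
    ext g
    have := col0 g
    linear_combination (L (cv 0) 0 g ^ 2) * this
  rw [I_add (by fun_prop) (by fun_prop), I_add (by fun_prop) (by fun_prop), mu1] at h
  unfold ee at h0 h1 h2
  linarith

theorem mu3 : mu 3 = 1 / 7 := by
  have h0 := (mom6 (cv 0) (cv 1)).1
  have h1 := (mom6 (cv 0) (cv 1)).2.2.1
  have h2 := (mom6 (cv 0) (cv 2)).2.2.1
  rw [cv_sq] at h0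
  rw [cv_sq, cv_sq, cv_mul (by decide)] at h1 h2
  have h : I 3 (fun g => (L (cv 0) 0 g ^ 6 * L (cv 1) 0 g ^ 0 +
      L (cv 0) 0 g ^ 4 * L (cv 1) 0 g ^ 2) + L (cv 0) 0 g ^ 4 * L (cv 2) 0 g ^ 2) = mu 2 := by
    have h3 := (mom4 (cv 0) (cv 1)).1
    rw [cv_sq] at h3
    have h4 : mu 2 = 1 ^ 2 * mu 2 := by ring
    rw [h4, ← h3]
    unfold ee
    congr 1
    ext g
    have := col0 g
    linear_combination (L (cv 0) 0 g ^ 4) * this
  rw [I_add (by fun_prop) (by fun_prop), I_add (by fun_prop) (by fun_prop), mu2] at h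
  unfold ee at h0 h1 h2
  linarith

end Pool.Agent.H892R2.Proj
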