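import Mathlib
import Pool.Agent.H892R2.Proj.Mom
import Pool.Agent.H892R2.Proj.Body

set_option autoImplicit false

open Set MeasureTheory Filter Topology Module
open scoped ENNReal Real RealInnerProductSpace

namespace Pool.Agent.H892R2.Proj

theorem row_rel (x y : Fin 3 → ℝ) (g : O 3) :
    L x 0 g * L y 0 g + L x 1 g * L y 1 g + L x 2 g * L y 2 g = ∑ l, x l * y l := by
  have h : ∀ k l, g.1 k 0 * g.1 l 0 + g.1 k 1 * g.1 l 1 + g.1 k 2 * g.1 l 2 =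
      if k = l then 1 else 0 := by
    intro k l
    have := row_sq g k l
    rwa [Fin.sum_univ_three] at this
  have h00 := h 0 0
  have h01 := h 0 1
  have h02 := h 0 2
  have h11 := h 1 1
  have h12 := h 1 2
  have h22 := h 2 2
  simp at h00 h01 h02 h11 h12 h22
  unfold L
  simp only [Fin.sum_univ_three]
  linear_combination (x 0 * y 0) * h00 + (x 0 * y 1 + x 1 * y 0) * h01 +
    (x 0 * y 2 + x 2 * y 0) * h02 + (x 1 * y 1) * h11 + (x 1 * y 2 + x 2 * y 1) * h12 +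
    (x 2 * y 2) * h22

/-- rotation of the first two columns -/
noncomputable def rotM (θ : ℝ) : Matrix (Fin 3) (Fin 3) ℝ :=
  !![Real.cos θ, -Real.sin θ, 0; Real.sin θ, Real.cos θ, 0; 0, 0, 1]

theorem rotM_mem (θ : ℝ) : rotM θ ∈ Matrix.orthogonalGroup (Fin 3) ℝ := by
  rw [Matrix.mem_orthogonalGroup_iff]
  have := Real.cos_sq_add_sin_sq θ
  ext i j
  fin_cases i <;> fin_cases j <;>
    simp [rotM, Matrix.mul_apply, Fin.sum_univ_three] <;> linarith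

noncomputable def rot (θ : ℝ) : O 3 := ⟨rotM θ, rotM_mem θ⟩

/-- swap of the last two columns -/
def swpM : Matrix (Fin 3) (Fin 3) ℝ := !![1, 0, 0; 0, 0, 1; 0, 1, 0]

theorem swpM_mem : swpM ∈ Matrix.orthogonalGroup (Fin 3) ℝ := by
  rw [Matrix.mem_orthogonalGroup_iff]
  ext i j
  fin_cases i <;> fin_cases j <;> simp [swpM, Matrix.mul_apply, Fin.sum_univ_three]

noncomputable def swp : O 3 := ⟨swpM, swpM_mem⟩

/-- minus the identity -/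
def negM : Matrix (Fin 3) (Fin 3) ℝ := !![-1, 0, 0; 0, -1, 0; 0, 0, -1]

theorem negM_mem : negM ∈ Matrix.orthogonalGroup (Fin 3) ℝ := by
  rw [Matrix.mem_orthogonalGroup_iff]
  ext i j
  fin_cases i <;> fin_cases j <;> simp [negM, Matrix.mul_apply, Fin.sum_univ_three]

noncomputable def ngt : O 3 := ⟨negM, negM_mem⟩

theorem L_mul (x : Fin 3 → ℝ) (k : Fin 3) (g h : O 3) :
    L x k (g * h) = h.1 0 k * L x 0 g + h.1 1 k * L x 1 g + h.1 2 k * L x 2 g := by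
  unfold L
  have : ∀ l, ((g * h : O 3).1 l k) = ∑ m, g.1 l m * h.1 m k := fun l => rfl
  simp only [this, Fin.sum_univ_three]
  ring

theorem L_rot (x : Fin 3 → ℝ) (g : O 3) (θ : ℝ) :
    L x 0 (g * rot θ) = cz (L x 0 g) (L x 1 g) θ ∧
    L x 1 (g * rot θ) = cz (L x 1 g) (-(L x 0 g)) θ := by
  rw [L_mul, L_mul]
  unfold cz
  constructor <;> simp [rot, rotM] <;> ring

theorem L_swp (x : Fin 3 → ℝ) (g : O 3) :
    L x 0 (g * swp) = L x 0 g ∧ L x 1 (g * swp) = L x 2 g := by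
  rw [L_mul, L_mul]
  constructor <;> simp [swp, swpM]

theorem L_ngt (x : Fin 3 → ℝ) (g : O 3) :
    L x 0 (g * ngt) = -L x 0 g ∧ L x 1 (g * ngt) = -L x 1 g := by
  rw [L_mul, L_mul]
  constructor <;> simp [ngt, negM]

/-- the even part of the integrand -/
noncomputable def G0 (p0 p1 q0 q1 : ℝ) : ℝ := 4 * DD p0 p1 + (oo p0 p1) ^ 2 - (Do p0 p1 q0 q1) ^ 2

theorem even_part (x y : Fin 3 → ℝ) (a c : ℝ) (hx : ∑ l, x l ^ 2 = 1 - a ^ 2)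
    (hxy : ∑ l, x l * y l = -(a * c)) (hy : ∑ l, y l ^ 2 = 1 - c ^ 2) :
    I 3 (fun g => G0 (L x 0 g) (L y 0 g) (L x 1 g) (L y 1 g)) = 0 := by
  have hDo : I 3 (fun g => (Do (L x 0 g) (L y 0 g) (L x 1 g) (L y 1 g)) ^ 2) =
      I 3 (fun g => (Do (L x 0 g) (L y 0 g) (L x 2 g) (L y 2 g)) ^ 2) := by
    rw [← right_inv (fun g => (Do (L x 0 g) (L y 0 g) (L x 1 g) (L y 1 g)) ^ 2) swp]
    congr 1
    ext g
    rw [(L_swp x g).1, (L_swp x g).2, (L_swp y g).1, (L_swp y g).2]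
  have hcont : ∀ k : Fin 3, Continuous
      (fun g => (Do (L x 0 g) (L y 0 g) (L x k g) (L y k g)) ^ 2) := by
    intro k; unfold Do; fun_prop
  have hsum : 2 * I 3 (fun g => (Do (L x 0 g) (L y 0 g) (L x 1 g) (L y 1 g)) ^ 2) =
      I 3 (fun g => (Do (L x 0 g) (L y 0 g) (L x 1 g) (L y 1 g)) ^ 2 +
        (Do (L x 0 g) (L y 0 g) (L x 2 g) (L y 2 g)) ^ 2) := by
    rw [I_add (hcont 1) (hcont 2), ← hDo]; ring
  have hpt : (fun g => (Do (L x 0 g) (L y 0 g) (L x 1 g) (L y 1 g)) ^ 2 +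
        (Do (L x 0 g) (L y 0 g) (L x 2 g) (L y 2 g)) ^ 2) = fun g =>
      9 * (L x 0 g ^ 4 * L y 0 g ^ 0 + (-2) * (L x 0 g ^ 2 * L y 0 g ^ 2) +
        L x 0 g ^ 0 * L y 0 g ^ 4) * (1 - a ^ 2) +
      2 * (-18) * (L x 0 g ^ 3 * L y 0 g ^ 1 + (-1) * (L x 0 g ^ 1 * L y 0 g ^ 3)) * (-(a * c)) +
      36 * (L x 0 g ^ 2 * L y 0 g ^ 2) * (1 - c ^ 2) +
      (-9) * (L x 0 g ^ 6 * L y 0 g ^ 0 + (-6) * (L x 0 g ^ 4 * L y 0 g ^ 2) +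
        9 * (L x 0 g ^ 2 * L y 0 g ^ 4)) := by
    ext g
    have r1 := row_rel x x g
    have r2 := row_rel x y g
    have r3 := row_rel y y g
    have s1 : ∑ l, x l * x l = 1 - a ^ 2 := by
      rw [← hx]; exact Finset.sum_congr rfl fun l _ => by ring
    have s3 : ∑ l, y l * y l = 1 - c ^ 2 := by
      rw [← hy]; exact Finset.sum_congr rfl fun l _ => by ring
    rw [s1] at r1
    rw [hxy] at r2
    rw [s3] at r3
    generalize L x 0 g = p0 at *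
    generalize L x 1 g = q0 at *
    generalize L x 2 g = r0 at *
    generalize L y 0 g = p1 at *
    generalize L y 1 g = q1 at *
    generalize L y 2 g = r1' at *
    unfold Do
    linear_combination (9 * (p0 ^ 2 - p1 ^ 2) ^ 2) * r1 +
      (-36 * (p0 ^ 2 - p1 ^ 2) * p0 * p1) * r2 + (36 * p0 ^ 2 * p1 ^ 2) * r3
  -- the whole integrand
  have hG : I 3 (fun g => G0 (L x 0 g) (L y 0 g) (L x 1 g) (L y 1 g)) =
      I 3 (fun g => 4 * DD (L x 0 g) (L y 0 g) + (oo (L x 0 g) (L y 0 g)) ^ 2) -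
        (1 / 2) * I 3 (fun g => (Do (L x 0 g) (L y 0 g) (L x 1 g) (L y 1 g)) ^ 2 +
        (Do (L x 0 g) (L y 0 g) (L x 2 g) (L y 2 g)) ^ 2) := by
    rw [← hsum]
    have e : (fun g => G0 (L x 0 g) (L y 0 g) (L x 1 g) (L y 1 g)) = fun g =>
        (4 * DD (L x 0 g) (L y 0 g) + (oo (L x 0 g) (L y 0 g)) ^ 2) +
          (-1) * (Do (L x 0 g) (L y 0 g) (L x 1 g) (L y 1 g)) ^ 2 := by
      ext g; unfold G0; ring
    rw [e, I_add (by unfold DD oo; fun_prop) (by unfold Do; fun_prop), I_mul]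
    ring
  rw [hG, hpt]
  have hP : (fun g => 4 * DD (L x 0 g) (L y 0 g) + (oo (L x 0 g) (L y 0 g)) ^ 2) = fun g =>
      (9 / 5) * (L x 0 g ^ 6 * L y 0 g ^ 0 + (-6) * (L x 0 g ^ 4 * L y 0 g ^ 2) +
        9 * (L x 0 g ^ 2 * L y 0 g ^ 4)) +
      (12 / 5) * (L x 0 g ^ 4 * L y 0 g ^ 0 + 2 * (L x 0 g ^ 2 * L y 0 g ^ 2) +
        L x 0 g ^ 0 * L y 0 g ^ 4) +
      (12 / 25) * (L x 0 g ^ 2 * L y 0 g ^ 0 + L x 0 g ^ 0 * L y 0 g ^ 2) + (-(16 / 25)) := by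
    ext g; unfold DD oo; ring
  rw [hP]
  have m2 := mom2 x y
  have m4 := mom4 x y
  have m6 := mom6 x y
  rw [hx, hxy, hy, mu1] at m2
  rw [hx, hxy, hy, mu2] at m4
  rw [hx, hxy, hy, mu3] at m6
  obtain ⟨a20, a11, a02⟩ := m2
  obtain ⟨a40, a31, a22, a13, a04⟩ := m4
  obtain ⟨a60, a51, a42, a33, a24, a15, a06⟩ := m6
  unfold ee at a20 a11 a02 a40 a31 a22 a13 a04 a60 a51 a42 a33 a24 a15 a06
  have n1 : I 3 (fun g => (L x 0 g ^ 6 * L y 0 g ^ 0 + (-6) * (L x 0 g ^ 4 * L y 0 g ^ 2) +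
        9 * (L x 0 g ^ 2 * L y 0 g ^ 4))) = (1 - a ^ 2) ^ 3 * (1 / 7) + (-6) *
        (((1 - a ^ 2) ^ 2 * (1 - c ^ 2) + 4 * (1 - a ^ 2) * (-(a * c)) ^ 2) / 5 * (1 / 7)) +
        9 * (((1 - a ^ 2) * (1 - c ^ 2) ^ 2 + 4 * (-(a * c)) ^ 2 * (1 - c ^ 2)) / 5 * (1 / 7)) := by
    rw [I_add (by fun_prop) (by fun_prop), I_add (by fun_prop) (by fun_prop), I_mul, I_mul,
      a60, a42, a24]
  have n2 : I 3 (fun g => (L x 0 g ^ 4 * L y 0 g ^ 0 + 2 * (L x 0 g ^ 2 * L y 0 g ^ 2) +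
        L x 0 g ^ 0 * L y 0 g ^ 4)) = (1 - a ^ 2) ^ 2 * (1 / 5) + 2 *
        (((1 - a ^ 2) * (1 - c ^ 2) + 2 * (-(a * c)) ^ 2) / 3 * (1 / 5)) +
        (1 - c ^ 2) ^ 2 * (1 / 5) := by
    rw [I_add (by fun_prop) (by fun_prop), I_add (by fun_prop) (by fun_prop), I_mul,
      a40, a22, a04]
  have n3 : I 3 (fun g => (L x 0 g ^ 2 * L y 0 g ^ 0 + L x 0 g ^ 0 * L y 0 g ^ 2)) =
      (1 - a ^ 2) * (1 / 3) + (1 - c ^ 2) * (1 / 3) := by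
    rw [I_add (by fun_prop) (by fun_prop), a20, a02]
  have n4 : I 3 (fun g => (L x 0 g ^ 4 * L y 0 g ^ 0 + (-2) * (L x 0 g ^ 2 * L y 0 g ^ 2) +
        L x 0 g ^ 0 * L y 0 g ^ 4)) = (1 - a ^ 2) ^ 2 * (1 / 5) + (-2) *
        (((1 - a ^ 2) * (1 - c ^ 2) + 2 * (-(a * c)) ^ 2) / 3 * (1 / 5)) +
        (1 - c ^ 2) ^ 2 * (1 / 5) := by
    rw [I_add (by fun_prop) (by fun_prop), I_add (by fun_prop) (by fun_prop), I_mul,
      a40, a22, a04]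
  have n5 : I 3 (fun g => (L x 0 g ^ 3 * L y 0 g ^ 1 + (-1) * (L x 0 g ^ 1 * L y 0 g ^ 3))) =
      (1 - a ^ 2) * (-(a * c)) * (1 / 5) + (-1) * ((1 - c ^ 2) * (-(a * c)) * (1 / 5)) := by
    rw [I_add (by fun_prop) (by fun_prop), I_mul, a31, a13]
  have l1 : I 3 (fun g => (9 / 5) * (L x 0 g ^ 6 * L y 0 g ^ 0 + (-6) * (L x 0 g ^ 4 * L y 0 g ^ 2) +
        9 * (L x 0 g ^ 2 * L y 0 g ^ 4)) +
      (12 / 5) * (L x 0 g ^ 4 * L y 0 g ^ 0 + 2 * (L x 0 g ^ 2 * L y 0 g ^ 2) +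
        L x 0 g ^ 0 * L y 0 g ^ 4) +
      (12 / 25) * (L x 0 g ^ 2 * L y 0 g ^ 0 + L x 0 g ^ 0 * L y 0 g ^ 2) + (-(16 / 25))) =
      (9 / 5) * ((1 - a ^ 2) ^ 3 * (1 / 7) + (-6) *
        (((1 - a ^ 2) ^ 2 * (1 - c ^ 2) + 4 * (1 - a ^ 2) * (-(a * c)) ^ 2) / 5 * (1 / 7)) +
        9 * (((1 - a ^ 2) * (1 - c ^ 2) ^ 2 + 4 * (-(a * c)) ^ 2 * (1 - c ^ 2)) / 5 * (1 / 7))) +
      (12 / 5) * ((1 - a ^ 2) ^ 2 * (1 / 5) + 2 *
        (((1 - a ^ 2) * (1 - c ^ 2) + 2 * (-(a * c)) ^ 2) / 3 * (1 / 5)) +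
        (1 - c ^ 2) ^ 2 * (1 / 5)) +
      (12 / 25) * ((1 - a ^ 2) * (1 / 3) + (1 - c ^ 2) * (1 / 3)) + (-(16 / 25)) := by
    rw [I_add (by fun_prop) (by fun_prop), I_add (by fun_prop) (by fun_prop),
      I_add (by fun_prop) (by fun_prop), I_mul, I_mul, I_mul, n1, n2, n3, I_const]
  have l2 : I 3 (fun g => 9 * (L x 0 g ^ 4 * L y 0 g ^ 0 + (-2) * (L x 0 g ^ 2 * L y 0 g ^ 2) +
        L x 0 g ^ 0 * L y 0 g ^ 4) * (1 - a ^ 2) +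
      2 * (-18) * (L x 0 g ^ 3 * L y 0 g ^ 1 + (-1) * (L x 0 g ^ 1 * L y 0 g ^ 3)) * (-(a * c)) +
      36 * (L x 0 g ^ 2 * L y 0 g ^ 2) * (1 - c ^ 2) +
      (-9) * (L x 0 g ^ 6 * L y 0 g ^ 0 + (-6) * (L x 0 g ^ 4 * L y 0 g ^ 2) +
        9 * (L x 0 g ^ 2 * L y 0 g ^ 4))) =
      9 * (1 - a ^ 2) * ((1 - a ^ 2) ^ 2 * (1 / 5) + (-2) *
        (((1 - a ^ 2) * (1 - c ^ 2) + 2 * (-(a * c)) ^ 2) / 3 * (1 / 5)) +
        (1 - c ^ 2) ^ 2 * (1 / 5)) +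
      2 * (-18) * (-(a * c)) * ((1 - a ^ 2) * (-(a * c)) * (1 / 5) +
        (-1) * ((1 - c ^ 2) * (-(a * c)) * (1 / 5))) +
      36 * (1 - c ^ 2) * (((1 - a ^ 2) * (1 - c ^ 2) + 2 * (-(a * c)) ^ 2) / 3 * (1 / 5)) +
      (-9) * ((1 - a ^ 2) ^ 3 * (1 / 7) + (-6) *
        (((1 - a ^ 2) ^ 2 * (1 - c ^ 2) + 4 * (1 - a ^ 2) * (-(a * c)) ^ 2) / 5 * (1 / 7)) +
        9 * (((1 - a ^ 2) * (1 - c ^ 2) ^ 2 + 4 * (-(a * c)) ^ 2 * (1 - c ^ 2)) / 5 * (1 / 7))) := by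
    have e : (fun g => 9 * (L x 0 g ^ 4 * L y 0 g ^ 0 + (-2) * (L x 0 g ^ 2 * L y 0 g ^ 2) +
        L x 0 g ^ 0 * L y 0 g ^ 4) * (1 - a ^ 2) +
      2 * (-18) * (L x 0 g ^ 3 * L y 0 g ^ 1 + (-1) * (L x 0 g ^ 1 * L y 0 g ^ 3)) * (-(a * c)) +
      36 * (L x 0 g ^ 2 * L y 0 g ^ 2) * (1 - c ^ 2) +
      (-9) * (L x 0 g ^ 6 * L y 0 g ^ 0 + (-6) * (L x 0 g ^ 4 * L y 0 g ^ 2) +
        9 * (L x 0 g ^ 2 * L y 0 g ^ 4))) = fun g =>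
        (9 * (1 - a ^ 2)) * (L x 0 g ^ 4 * L y 0 g ^ 0 + (-2) * (L x 0 g ^ 2 * L y 0 g ^ 2) +
        L x 0 g ^ 0 * L y 0 g ^ 4) +
      (2 * (-18) * (-(a * c))) * (L x 0 g ^ 3 * L y 0 g ^ 1 + (-1) * (L x 0 g ^ 1 * L y 0 g ^ 3)) +
      (36 * (1 - c ^ 2)) * (L x 0 g ^ 2 * L y 0 g ^ 2) +
      (-9) * (L x 0 g ^ 6 * L y 0 g ^ 0 + (-6) * (L x 0 g ^ 4 * L y 0 g ^ 2) +
        9 * (L x 0 g ^ 2 * L y 0 g ^ 4)) := by
      ext g; ring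
    rw [e, I_add (by fun_prop) (by fun_prop), I_add (by fun_prop) (by fun_prop),
      I_add (by fun_prop) (by fun_prop), I_mul, I_mul, I_mul, I_mul, n1, n4, n5, a22]
  rw [l1, l2]
  ring

/-- the integrand of the area functional -/
noncomputable def GG (σ τ p0 p1 q0 q1 : ℝ) : ℝ := (1 + PP σ τ p0 p1) ^ 2 - (DP σ τ p0 p1 q0 q1) ^ 2

theorem full_part (ε : ℝ) (x y : Fin 3 → ℝ) (a c : ℝ) (hx : ∑ l, x l ^ 2 = 1 - a ^ 2)
    (hxy : ∑ l, x l * y l = -(a * c)) (hy : ∑ l, y l ^ 2 = 1 - c ^ 2) :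
    I 3 (fun g => GG ε (ε ^ 2) (L x 0 g) (L y 0 g) (L x 1 g) (L y 1 g)) =
      I 3 (fun g => GG 0 (-ε ^ 2) (L x 0 g) (L y 0 g) (L x 1 g) (L y 1 g)) := by
  set odd : ℝ → ℝ → ℝ → ℝ → ℝ := fun p0 p1 q0 q1 =>
    2 * ε * oo p0 p1 + 2 * ε ^ 3 * oo p0 p1 * DD p0 p1 -
      2 * ε ^ 3 * Do p0 p1 q0 q1 * Dd p0 p1 q0 q1 with hodd
  have hoddI : I 3 (fun g => odd (L x 0 g) (L y 0 g) (L x 1 g) (L y 1 g)) = 0 := by
    have h1 := right_inv (fun g => odd (L x 0 g) (L y 0 g) (L x 1 g) (L y 1 g)) ngt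
    have h2 : (fun g => odd (L x 0 (g * ngt)) (L y 0 (g * ngt)) (L x 1 (g * ngt))
        (L y 1 (g * ngt))) = fun g => (-1) * odd (L x 0 g) (L y 0 g) (L x 1 g) (L y 1 g) := by
      ext g
      rw [(L_ngt x g).1, (L_ngt x g).2, (L_ngt y g).1, (L_ngt y g).2]
      simp only [hodd]
      unfold Dd DD Do oo
      ring
    rw [h2, I_mul] at h1
    linarith
  have e : (fun g => GG ε (ε ^ 2) (L x 0 g) (L y 0 g) (L x 1 g) (L y 1 g)) = fun g =>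
      (GG 0 (-ε ^ 2) (L x 0 g) (L y 0 g) (L x 1 g) (L y 1 g) +
        ε ^ 2 * G0 (L x 0 g) (L y 0 g) (L x 1 g) (L y 1 g)) +
        odd (L x 0 g) (L y 0 g) (L x 1 g) (L y 1 g) := by
    ext g
    simp only [hodd]
    unfold GG G0 PP DP
    ring
  have c1 : Continuous (fun g => GG 0 (-ε ^ 2) (L x 0 g) (L y 0 g) (L x 1 g) (L y 1 g)) := by
    unfold GG PP DP Dd DD Do oo; fun_prop
  have c2 : Continuous (fun g => ε ^ 2 * G0 (L x 0 g) (L y 0 g) (L x 1 g) (L y 1 g)) := by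
    unfold G0 DD Do oo; fun_prop
  have c3 : Continuous (fun g => odd (L x 0 g) (L y 0 g) (L x 1 g) (L y 1 g)) := by
    simp only [hodd]; unfold Dd DD Do oo; fun_prop
  rw [e, I_add (f := fun g => GG 0 (-ε ^ 2) (L x 0 g) (L y 0 g) (L x 1 g) (L y 1 g) +
    ε ^ 2 * G0 (L x 0 g) (L y 0 g) (L x 1 g) (L y 1 g)) (c1.add c2) c3, I_add c1 c2, I_mul, hoddI,
    even_part x y a c hx hxy hy]
  ring

/-- average of the area functional -/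
theorem area_avg (σ τ : ℝ) (x y : Fin 3 → ℝ) :
    I 3 (fun g => areaF σ τ (L x 0 g) (L y 0 g) (L x 1 g) (L y 1 g)) =
      π * I 3 (fun g => GG σ τ (L x 0 g) (L y 0 g) (L x 1 g) (L y 1 g)) := by
  unfold areaF
  rw [I_mul]
  have key : ∀ θ : ℝ, I 3 (fun g => (hh σ τ (L x 0 g) (L y 0 g) (L x 1 g) (L y 1 g) θ) ^ 2 -
      (hh1 σ τ (L x 0 g) (L y 0 g) (L x 1 g) (L y 1 g) θ) ^ 2) =
      I 3 (fun g => GG σ τ (L x 0 g) (L y 0 g) (L x 1 g) (L y 1 g)) := by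
    intro θ
    rw [← right_inv (fun g => GG σ τ (L x 0 g) (L y 0 g) (L x 1 g) (L y 1 g)) (rot θ)]
    congr 1
    ext g
    rw [(L_rot x g θ).1, (L_rot x g θ).2, (L_rot y g θ).1, (L_rot y g θ).2]
    rfl
  have hswap : I 3 (fun g => ∫ θ in (0:ℝ)..(2 * π),
      ((hh σ τ (L x 0 g) (L y 0 g) (L x 1 g) (L y 1 g) θ) ^ 2 -
      (hh1 σ τ (L x 0 g) (L y 0 g) (L x 1 g) (L y 1 g) θ) ^ 2)) =
      ∫ θ in (0:ℝ)..(2 * π), I 3 (fun g => (hh σ τ (L x 0 g) (L y 0 g) (L x 1 g) (L y 1 g) θ) ^ 2 -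
      (hh1 σ τ (L x 0 g) (L y 0 g) (L x 1 g) (L y 1 g) θ) ^ 2) := by
    unfold I
    simp only [intervalIntegral.integral_of_le (show (0:ℝ) ≤ 2 * π by positivity)]
    rw [integral_integral_swap]
    have hc : Continuous (fun z : O 3 × ℝ => (hh σ τ (L x 0 z.1) (L y 0 z.1) (L x 1 z.1)
        (L y 1 z.1) z.2) ^ 2 - (hh1 σ τ (L x 0 z.1) (L y 0 z.1) (L x 1 z.1) (L y 1 z.1) z.2) ^ 2) := by
      have c0 := L_cont x 0
      have c1 := L_cont x 1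
      have c2 := L_cont y 0
      have c3 := L_cont y 1
      unfold hh hh1 PP DP Dd DD Do oo cz
      fun_prop
    have h1 : IntegrableOn (Function.uncurry fun (g : O 3) (θ : ℝ) =>
        (hh σ τ (L x 0 g) (L y 0 g) (L x 1 g) (L y 1 g) θ) ^ 2 -
        (hh1 σ τ (L x 0 g) (L y 0 g) (L x 1 g) (L y 1 g) θ) ^ 2)
        (univ ×ˢ Icc (0:ℝ) (2 * π)) ((haarO 3).prod volume) :=
      hc.continuousOn.integrableOn_compact (isCompact_univ.prod isCompact_Icc)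
    have h2 := h1.mono_set (show univ ×ˢ Ioc (0:ℝ) (2 * π) ⊆ univ ×ˢ Icc (0:ℝ) (2 * π) from
      Set.prod_mono le_rfl Ioc_subset_Icc_self)
    rw [IntegrableOn, ← Measure.prod_restrict, Measure.restrict_univ] at h2
    exact h2
  rw [hswap]
  simp only [key]
  rw [intervalIntegral.integral_const, smul_eq_mul]
  ring

end Pool.Agent.H892R2.Proj
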