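import Mathlib
import Pool.Agent.H892R2.Proj.Main

set_option autoImplicit false

open Set MeasureTheory Filter Topology Module
open scoped ENNReal Real RealInnerProductSpace

namespace Pool.Agent.H892R2.Proj

/-- The columns of `g`. -/
def col {n : ℕ} (g : O n) (k : Fin n) : E n := WithLp.toLp 2 (fun i => g.1 i k)

theorem col_orthonormal {n : ℕ} (g : O n) : Orthonormal ℝ (col g) := by
  rw [orthonormal_iff_ite]
  intro k l
  rw [← col_sq g k l, PiLp.inner_apply]
  refine Finset.sum_congr rfl fun i _ => ?_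
  simp [col, mul_comm]

theorem plane_eq {n j : ℕ} (hj : j ≤ n) (g : O n) :
    plane n j g = Submodule.span ℝ (Set.range (fun k : Fin j => col g (Fin.castLE hj k))) := by
  unfold plane
  congr 1
  ext x
  constructor
  · rintro ⟨k, hk, hx⟩
    refine ⟨⟨k, hk⟩, ?_⟩
    ext i
    exact (hx i).symm
  · rintro ⟨k, rfl⟩
    exact ⟨Fin.castLE hj k, k.2, fun i => rfl⟩

/-- The columns form an orthonormal basis of the plane. -/
theorem exists_basis {n j : ℕ} (hj : j ≤ n) (g : O n) :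
    ∃ b : OrthonormalBasis (Fin j) ℝ (plane n j g), ∀ k, (b k : E n) = col g (Fin.castLE hj k) := by
  have hmem : ∀ k : Fin j, col g (Fin.castLE hj k) ∈ plane n j g := by
    intro k
    rw [plane_eq hj]
    exact Submodule.subset_span ⟨k, rfl⟩
  have hon : Orthonormal ℝ (fun k : Fin j => col g (Fin.castLE hj k)) :=
    (col_orthonormal g).comp _ (Fin.castLE_injective hj)
  let v : Fin j → plane n j g := fun k => ⟨col g (Fin.castLE hj k), hmem k⟩
  have hv : Orthonormal ℝ v := by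
    rw [orthonormal_iff_ite] at hon ⊢
    exact hon
  have hsp : ⊤ ≤ Submodule.span ℝ (Set.range v) := by
    rintro ⟨x, hx⟩ -
    have h1 : (plane n j g).map (LinearMap.id) = (Submodule.span ℝ (Set.range v)).map
        (plane n j g).subtype := by
      rw [Submodule.map_id, Submodule.map_span, ← Set.range_comp]
      exact plane_eq hj g
    rw [Submodule.map_id] at h1
    have h2 : x ∈ (Submodule.span ℝ (Set.range v)).map (plane n j g).subtype := by
      rw [← h1]; exact hx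
    obtain ⟨y, hy, hyx⟩ := h2
    have h3 : y = ⟨x, hx⟩ := Subtype.ext hyx
    rw [← h3]
    exact hy
  exact ⟨OrthonormalBasis.mk hv hsp, fun k => by simp [v]⟩

theorem volIn_proj {F : Type} [NormedAddCommGroup F] [InnerProductSpace ℝ F]
    [FiniteDimensional ℝ F] [MeasurableSpace F] [BorelSpace F] (W : Submodule ℝ F)
    (b : OrthonormalBasis (Fin 2) ℝ W) (K : Set F) :
    vol (within W (proj K W)) = volume ((fun x : F => ((⟪(b 0 : F), x⟫, ⟪(b 1 : F), x⟫) : ℝ × ℝ)) '' K) := by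
  set e : W ≃ᵐ ℝ × ℝ := (b.repr.toHomeomorph.toMeasurableEquiv).trans
    ((MeasurableEquiv.toLp 2 (Fin 2 → ℝ)).symm.trans MeasurableEquiv.finTwoArrow) with he
  have hmp : MeasurePreserving e volume volume := by
    have h1 : MeasurePreserving b.repr volume volume := b.repr.measurePreserving
    have h2 := EuclideanSpace.volume_preserving_symm_measurableEquiv_toLp (Fin 2)
    have h3 := volume_preserving_finTwoArrow ℝ
    exact h3.comp (h2.comp h1)
  have hev : ∀ y : W, e y = (⟪(b 0 : F), (y : F)⟫, ⟪(b 1 : F), (y : F)⟫) := by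
    intro y
    have h1 : e y = (b.repr y 0, b.repr y 1) := rfl
    rw [h1, b.repr_apply_apply, b.repr_apply_apply]
    rfl
  rw [← hmp.measure_preimage_equiv]
  unfold vol within proj
  congr 1
  ext y
  simp only [mem_ofPred_eq, mem_image, mem_preimage]
  have hin : ∀ (x : F) (k : Fin 2), ⟪(b k : F), x⟫ = ⟪(b k : F), W.starProjection x⟫ := by
    intro x k
    have h1 : W.starProjection x = (W.orthogonalProjectionOnto x : F) := rfl
    rw [h1]
    have h2 : ⟪(b k : F), ((W.orthogonalProjectionOnto x : W) : F)⟫ =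
        ⟪b k, W.orthogonalProjectionOnto x⟫ := rfl
    rw [h2, Submodule.inner_orthogonalProjectionOnto_eq_of_mem_left]
  constructor
  · rintro ⟨x, hx, hxy⟩
    refine ⟨x, hx, ?_⟩
    rw [hev, hin x 0, hin x 1, hxy]
  · rintro ⟨x, hx, hxy⟩
    refine ⟨x, hx, ?_⟩
    rw [hev, Prod.mk.injEq] at hxy
    have h1 : W.orthogonalProjectionOnto x = y := by
      apply b.repr.injective
      ext k
      rw [b.repr_apply_apply, b.repr_apply_apply]
      have h2 : ∀ k : Fin 2, ⟪b k, W.orthogonalProjectionOnto x⟫ = ⟪b k, y⟫ := by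
        intro k
        have h3 : ⟪b k, W.orthogonalProjectionOnto x⟫ = ⟪(b k : F), x⟫ :=
          Submodule.inner_orthogonalProjectionOnto_eq_of_mem_left (b k) x
        rw [h3]
        fin_cases k
        · exact hxy.1
        · exact hxy.2
      exact h2 k
    exact congrArg Subtype.val h1

theorem coords_proj {n : ℕ} (K : Set (E n)) (S : Submodule ℝ (E n)) :
    coords (within S (proj K S)) =
      (fun x => (stdOrthonormalBasis ℝ S).repr (S.orthogonalProjectionOnto x)) '' K := by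
  have hc : ∀ x : S, coord x = (stdOrthonormalBasis ℝ S).repr x := by
    intro x
    ext l
    rw [OrthonormalBasis.repr_apply_apply]
    rfl
  unfold coords
  rw [show (coord : S → E (finrank ℝ S)) = (stdOrthonormalBasis ℝ S).repr from funext hc]
  rw [show (fun x => (stdOrthonormalBasis ℝ S).repr (S.orthogonalProjectionOnto x)) =
    (stdOrthonormalBasis ℝ S).repr ∘ S.orthogonalProjectionOnto from rfl, Set.image_comp]
  congr 1
  ext y
  unfold within proj
  simp only [mem_ofPred_eq, mem_image]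
  constructor
  · rintro ⟨x, hx, hxy⟩
    exact ⟨x, hx, Subtype.ext hxy⟩
  · rintro ⟨x, hx, rfl⟩
    exact ⟨x, hx, rfl⟩

theorem projVolume_eq {n : ℕ} (K : Set (E n)) (S : Submodule ℝ (E n)) (k : ℕ)
    (hk : finrank ℝ S = k) (i : ℕ) : ∃ b : OrthonormalBasis (Fin k) ℝ S,
    projVolume i K S = intrinsicVolume k i ((fun x => b.repr (S.orthogonalProjectionOnto x)) '' K) := by
  subst hk
  refine ⟨stdOrthonormalBasis ℝ S, ?_⟩
  unfold projVolume
  rw [coords_proj]

/-- vectors of `E n` given by the columns of `g` in an orthonormal basis of `S` -/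
noncomputable def pv {n k : ℕ} {S : Submodule ℝ (E n)} (b : OrthonormalBasis (Fin k) ℝ S)
    (g : O k) (j : Fin k) : E n := ((b.repr.symm (col g j) : S) : E n)

theorem pv_apply {n k : ℕ} {S : Submodule ℝ (E n)} (b : OrthonormalBasis (Fin k) ℝ S)
    (g : O k) (j : Fin k) (i : Fin n) : pv b g j i = ∑ l, g.1 l j * (b l : E n) i := by
  unfold pv
  have h1 : b.repr.symm (col g j) = ∑ l, g.1 l j • b l := by
    rw [← b.sum_repr (b.repr.symm (col g j))]
    refine Finset.sum_congr rfl fun l _ => ?_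
    rw [LinearIsometryEquiv.apply_symm_apply]
    rfl
  rw [h1]
  simp

theorem pv_inner {n k : ℕ} {S : Submodule ℝ (E n)} (b : OrthonormalBasis (Fin k) ℝ S)
    (g : O k) (i j : Fin k) : ⟪pv b g i, pv b g j⟫ = if i = j then 1 else 0 := by
  have h1 : ⟪pv b g i, pv b g j⟫ = ⟪b.repr.symm (col g i), b.repr.symm (col g j)⟫ := rfl
  rw [h1, LinearIsometryEquiv.inner_map_map]
  have := col_orthonormal g
  rw [orthonormal_iff_ite] at this
  exact this i j

theorem iv_eq {n k : ℕ} (hk : 2 ≤ k) {S : Submodule ℝ (E n)} (b : OrthonormalBasis (Fin k) ℝ S)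
    (K : Set (E n)) :
    intrinsicVolume k 2 ((fun x => b.repr (S.orthogonalProjectionOnto x)) '' K) =
      ENNReal.ofReal (flagCoeff k 2) * ∫⁻ g, volume ((fun x : E n =>
        ((⟪pv b g (Fin.castLE hk 0), x⟫, ⟪pv b g (Fin.castLE hk 1), x⟫) : ℝ × ℝ)) '' K) ∂(haarO k) := by
  unfold intrinsicVolume
  congr 1
  refine lintegral_congr fun g => ?_
  obtain ⟨b', hb'⟩ := exists_basis hk g
  rw [volIn_proj _ b', Set.image_image]
  have h1 : ∀ (j : Fin 2) (x : E n), ⟪((b' j : plane k 2 g) : E k),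
      b.repr (S.orthogonalProjectionOnto x)⟫ = ⟪pv b g (Fin.castLE hk j), x⟫ := by
    intro j x
    rw [hb']
    have h2 : ⟪pv b g (Fin.castLE hk j), x⟫ =
        ⟪b.repr.symm (col g (Fin.castLE hk j)), S.orthogonalProjectionOnto x⟫ :=
      (Submodule.inner_orthogonalProjectionOnto_eq_of_mem_left _ x).symm
    rw [h2, ← LinearIsometryEquiv.inner_map_map b.repr, LinearIsometryEquiv.apply_symm_apply]
  simp only [h1]

/-- the projection volumes of the bodies -/
theorem projVolume_body {σ τ : ℝ} (hσ : |σ| ≤ 1 / 100) (hτ : |τ| ≤ 1 / 1000) {k : ℕ} (hk : 2 ≤ k)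
    {S : Submodule ℝ (E 4)} (b : OrthonormalBasis (Fin k) ℝ S) :
    intrinsicVolume k 2 ((fun x => b.repr (S.orthogonalProjectionOnto x)) '' body σ τ) =
      ENNReal.ofReal (flagCoeff k 2) * ∫⁻ g, ENNReal.ofReal (areaF σ τ
        (pv b g (Fin.castLE hk 0) 0) (pv b g (Fin.castLE hk 0) 1)
        (pv b g (Fin.castLE hk 1) 0) (pv b g (Fin.castLE hk 1) 1)) ∂(haarO k) := by
  rw [iv_eq hk]
  congr 1
  refine lintegral_congr fun g => ?_
  have hn : ∀ j, ‖pv b g j‖ = 1 := by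
    intro j
    have h1 := pv_inner b g j j
    rw [if_pos rfl, real_inner_self_eq_norm_sq] at h1
    have h2 := norm_nonneg (pv b g j)
    nlinarith
  have h0 : ⟪pv b g (Fin.castLE hk 0), pv b g (Fin.castLE hk 1)⟫ = 0 := by
    rw [pv_inner, if_neg]
    intro h
    have := congrArg Fin.val h
    simp at this
  exact shadow_area hσ hτ _ _ (hn _) (hn _) h0

theorem Dd_abs {X Y a b : ℝ} (h : X ^ 2 + Y ^ 2 ≤ 1) (hab : a ^ 2 + b ^ 2 ≤ 1) :
    |Do X Y a b| ≤ 3 ∧ |Dd X Y a b| ≤ 10 := by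
  have hB : 0 ≤ X ^ 2 + Y ^ 2 := by positivity
  have hDo : |Do X Y a b| ≤ 3 := by
    apply abs_le_of_sq (by norm_num)
    have := Do_sq X Y a b
    have h3 : (X ^ 2 + Y ^ 2) ^ 2 ≤ 1 := pow_le_one₀ hB h
    have h4 : (X ^ 2 + Y ^ 2) ^ 2 * (a ^ 2 + b ^ 2) ≤ 1 := mul_le_one₀ h3 (by positivity) hab
    nlinarith
  refine ⟨hDo, ?_⟩
  have ho := oo_abs h
  have hc : |X * a + Y * b| ≤ 1 := by
    apply abs_le_of_sq zero_le_one
    nlinarith [sq_nonneg (X * b - Y * a)]
  have h1 : |oo X Y * Do X Y a b| ≤ 1 * 3 := by rw [abs_mul]; gcongr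
  have h2 : |(X ^ 2 + Y ^ 2) * (X * a + Y * b)| ≤ 1 * 1 := by
    rw [abs_mul, abs_of_nonneg hB]; gcongr
  have e : Dd X Y a b = (10 * (oo X Y * Do X Y a b) + 60 * ((X ^ 2 + Y ^ 2) * (X * a + Y * b)) +
      6 * (X * a + Y * b)) / 25 := by unfold Dd; ring
  rw [e]
  have h1' := abs_le.mp h1
  have h2' := abs_le.mp h2
  have h3' := abs_le.mp hc
  rw [abs_le]
  constructor <;> linarith [h1'.1, h1'.2, h2'.1, h2'.2, h3'.1, h3'.2]

theorem areaF_nonneg {σ τ : ℝ} (hσ : |σ| ≤ 1 / 100) (hτ : |τ| ≤ 1 / 1000) (p q : E 4)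
    (hp : ‖p‖ = 1) (hq : ‖q‖ = 1) (hpq : ⟪p, q⟫ = 0) :
    0 ≤ areaF σ τ (p 0) (p 1) (q 0) (q 1) := by
  unfold areaF
  apply mul_nonneg (by norm_num)
  apply intervalIntegral.integral_nonneg (by positivity)
  intro θ _
  have h1 := le_one_of_norm (circle_vec hp hq hpq θ)
  have h2 := le_one_of_norm (circle_vec hp hq hpq (θ + π / 2))
  rw [Real.cos_add_pi_div_two, Real.sin_add_pi_div_two] at h2
  simp only [PiLp.add_apply, PiLp.smul_apply, smul_eq_mul] at h1 h2
  have a1 : cz (p 0) (q 0) θ ^ 2 + cz (p 1) (q 1) θ ^ 2 ≤ 1 := by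
    unfold cz; calc _ = (Real.cos θ * p 0 + Real.sin θ * q 0) ^ 2 +
        (Real.cos θ * p 1 + Real.sin θ * q 1) ^ 2 := by ring
      _ ≤ 1 := h1
  have a2 : cz (q 0) (-(p 0)) θ ^ 2 + cz (q 1) (-(p 1)) θ ^ 2 ≤ 1 := by
    unfold cz; calc _ = (-Real.sin θ * p 0 + Real.cos θ * q 0) ^ 2 +
        (-Real.sin θ * p 1 + Real.cos θ * q 1) ^ 2 := by ring
      _ ≤ 1 := h2
  have b1 := (abs_le.mp (PP_bound hσ hτ a1)).1
  obtain ⟨b2, b3⟩ := Dd_abs a1 a2
  have b4 : |hh1 σ τ (p 0) (p 1) (q 0) (q 1) θ| ≤ 1 / 2 := by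
    unfold hh1 DP
    calc _ ≤ |σ * Do (cz (p 0) (q 0) θ) (cz (p 1) (q 1) θ) (cz (q 0) (-(p 0)) θ)
          (cz (q 1) (-(p 1)) θ)| + |τ * Dd (cz (p 0) (q 0) θ) (cz (p 1) (q 1) θ)
          (cz (q 0) (-(p 0)) θ) (cz (q 1) (-(p 1)) θ)| := abs_add_le _ _
      _ ≤ 1 / 100 * 3 + 1 / 1000 * 10 := by
          rw [abs_mul, abs_mul]; gcongr
      _ ≤ 1 / 2 := by norm_num
  have b5 := abs_le.mp b4
  have b6 : 9 / 10 ≤ hh σ τ (p 0) (p 1) (q 0) (q 1) θ := by unfold hh; linarith
  nlinarith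

theorem areaF_cont (σ τ : ℝ) {X : Type*} [TopologicalSpace X] {a b c d : X → ℝ}
    (ha : Continuous a) (hb : Continuous b) (hc : Continuous c) (hd : Continuous d) :
    Continuous (fun g => areaF σ τ (a g) (b g) (c g) (d g)) := by
  unfold areaF
  refine continuous_const.mul ?_
  apply intervalIntegral.continuous_parametric_intervalIntegral_of_continuous'
  unfold hh hh1 PP DP Dd DD Do oo cz
  simp only [Function.uncurry_def]
  fun_prop

/-- relations for an orthonormal basis of `u^⊥` -/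
theorem basis_rel (u : E 4) (hu : ‖u‖ = 1) (S : Submodule ℝ (E 4)) (hS : S = (ℝ ∙ u)ᗮ)
    (b : OrthonormalBasis (Fin 3) ℝ S)
    (i j : Fin 4) : ∑ l, (b l : E 4) i * (b l : E 4) j = (if i = j then 1 else 0) - u i * u j := by
  have hei : ∀ (i : Fin 4) (x : E 4), ⟪EuclideanSpace.single i (1:ℝ), x⟫ = x i := by
    intro i x; simp [EuclideanSpace.inner_single_left]
  have hin : ∀ (l : Fin 3) (x : E 4), ⟪b l, S.orthogonalProjectionOnto x⟫ = ⟪(b l : E 4), x⟫ :=
    fun l x => Submodule.inner_orthogonalProjectionOnto_eq_of_mem_left (b l) x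
  have h1 : ∑ l, (b l : E 4) i * (b l : E 4) j =
      ⟪S.orthogonalProjectionOnto (EuclideanSpace.single i (1:ℝ)),
        S.orthogonalProjectionOnto (EuclideanSpace.single j (1:ℝ))⟫ := by
    rw [← b.sum_inner_mul_inner]
    refine Finset.sum_congr rfl fun l _ => ?_
    rw [real_inner_comm, hin, hin, real_inner_comm, hei, real_inner_comm, hei]
  rw [h1, Submodule.inner_orthogonalProjectionOnto_eq_of_mem_right]
  have h2 : ((S.orthogonalProjectionOnto (EuclideanSpace.single j (1:ℝ)) : S) : E 4) =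
      S.starProjection (EuclideanSpace.single j (1:ℝ)) := rfl
  rw [h2, hei]
  subst hS
  rw [Submodule.starProjection_orthogonal_val, Submodule.starProjection_unit_singleton ℝ hu,
    real_inner_comm, hei]
  simp only [PiLp.sub_apply, PiLp.smul_apply, smul_eq_mul, PiLp.single_apply]
  ring

/-- The two bodies have equal second intrinsic volumes of all hyperplane projections. -/
theorem hyperplane_eq (ε : ℝ) (hε0 : 0 < ε) (hε : ε ≤ 1 / 100) (u : E 4) (hu : ‖u‖ = 1) :
    projVolume 2 (body ε (ε ^ 2)) (ℝ ∙ u)ᗮ = projVolume 2 (body 0 (-ε ^ 2)) (ℝ ∙ u)ᗮ := by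
  have hfr : finrank ℝ (ℝ ∙ u)ᗮ = 3 := by
    have hu0 : u ≠ 0 := by intro h; rw [h, norm_zero] at hu; norm_num at hu
    have h3 := Submodule.finrank_add_finrank_orthogonal (ℝ ∙ u)
    rw [finrank_span_singleton hu0, finrank_euclideanSpace_fin] at h3
    omega
  have a1 : |ε| ≤ 1 / 100 := by rw [abs_of_pos hε0]; exact hε
  have a2 : |ε ^ 2| ≤ 1 / 1000 := by rw [abs_of_pos (by positivity)]; nlinarith
  have a3 : |(0:ℝ)| ≤ 1 / 100 := by norm_num
  have a4 : |-ε ^ 2| ≤ 1 / 1000 := by rw [abs_neg]; exact a2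
  have key : ∀ (σ τ : ℝ), |σ| ≤ 1 / 100 → |τ| ≤ 1 / 1000 →
      ∀ b : OrthonormalBasis (Fin 3) ℝ (ℝ ∙ u)ᗮ,
      intrinsicVolume 3 2 ((fun x => b.repr ((ℝ ∙ u)ᗮ.orthogonalProjectionOnto x)) '' body σ τ) =
        ENNReal.ofReal (flagCoeff 3 2) * ENNReal.ofReal (π * I 3 (fun g =>
          GG σ τ (L (fun l => (b l : E 4) 0) 0 g) (L (fun l => (b l : E 4) 1) 0 g)
            (L (fun l => (b l : E 4) 0) 1 g) (L (fun l => (b l : E 4) 1) 1 g))) := by
    intro σ τ hσ hτ b
    rw [projVolume_body hσ hτ (by norm_num : 2 ≤ 3)]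
    congr 1
    rw [← area_avg]
    unfold I
    rw [ofReal_integral_eq_lintegral_ofReal]
    · refine lintegral_congr fun g => ?_
      rw [pv_apply, pv_apply, pv_apply, pv_apply]
      rfl
    · exact integrable_cont (areaF_cont σ τ (L_cont _ _) (L_cont _ _) (L_cont _ _) (L_cont _ _))
    · refine Filter.Eventually.of_forall fun g => ?_
      have hn : ∀ j, ‖pv b g j‖ = 1 := by
        intro j
        have h1 := pv_inner b g j j
        rw [if_pos rfl, real_inner_self_eq_norm_sq] at h1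
        have h2 := norm_nonneg (pv b g j)
        nlinarith
      have h0 : ⟪pv b g 0, pv b g 1⟫ = 0 := by
        rw [pv_inner, if_neg (by decide)]
      have h2 := areaF_nonneg hσ hτ _ _ (hn 0) (hn 1) h0
      rw [pv_apply, pv_apply, pv_apply, pv_apply] at h2
      exact h2
  have hpv : ∀ K : Set (E 4), ∃ b : OrthonormalBasis (Fin 3) ℝ (ℝ ∙ u)ᗮ,
      projVolume 2 K (ℝ ∙ u)ᗮ =
        intrinsicVolume 3 2 ((fun x => b.repr ((ℝ ∙ u)ᗮ.orthogonalProjectionOnto x)) '' K) :=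
    fun K => projVolume_eq K _ 3 hfr 2
  -- the same basis for both bodies
  have hpv2 : ∃ b : OrthonormalBasis (Fin 3) ℝ (ℝ ∙ u)ᗮ, ∀ K : Set (E 4),
      projVolume 2 K (ℝ ∙ u)ᗮ =
        intrinsicVolume 3 2 ((fun x => b.repr ((ℝ ∙ u)ᗮ.orthogonalProjectionOnto x)) '' K) := by
    have gen : ∀ (S : Submodule ℝ (E 4)) (k : ℕ), finrank ℝ S = k →
        ∃ b : OrthonormalBasis (Fin k) ℝ S, ∀ K : Set (E 4),
        projVolume 2 K S = intrinsicVolume k 2 ((fun x => b.repr (S.orthogonalProjectionOnto x)) '' K) := by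
      intro S k hk
      subst hk
      refine ⟨stdOrthonormalBasis ℝ S, fun K => ?_⟩
      unfold projVolume
      rw [coords_proj]
    exact gen _ 3 hfr
  obtain ⟨b, hb⟩ := hpv2
  rw [hb, hb, key ε (ε ^ 2) a1 a2 b, key 0 (-ε ^ 2) a3 a4 b]
  congr 3
  have r00 := basis_rel u hu _ rfl b 0 0
  have r01 := basis_rel u hu _ rfl b 0 1
  have r11 := basis_rel u hu _ rfl b 1 1
  rw [if_pos rfl] at r00 r11
  rw [if_neg (by decide)] at r01
  refine full_part ε _ _ (u 0) (u 1) ?_ ?_ ?_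
  · rw [← sq] at r00
    rw [← r00]
    exact Finset.sum_congr rfl fun l _ => by ring
  · rw [r01]; ring
  · rw [← sq] at r11
    rw [← r11]
    exact Finset.sum_congr rfl fun l _ => by ring

theorem kappa_pos (m : ℕ) : 0 < kappa m := by
  unfold kappa
  refine ENNReal.toReal_pos ?_ ?_
  · exact (Metric.measure_closedBall_pos volume _ one_pos).ne'
  · exact (isCompact_closedBall _ _).measure_lt_top.ne

theorem flagCoeff_pos {m i : ℕ} (h : i ≤ m) : 0 < flagCoeff m i := by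
  unfold flagCoeff
  have h1 := kappa_pos m
  have h2 := kappa_pos i
  have h3 := kappa_pos (m - i)
  have h4 : 0 < (m.choose i : ℝ) := by exact_mod_cast Nat.choose_pos h
  positivity

/-- the special plane -/
def S0 : Submodule ℝ (E 4) :=
  Submodule.span ℝ (Set.range ![(EuclideanSpace.single 2 (1:ℝ) : E 4), EuclideanSpace.single 3 (1:ℝ)])

theorem S0_finrank : finrank ℝ S0 = 2 := by
  unfold S0
  rw [finrank_span_eq_card]
  · simp
  · have h : Orthonormal ℝ ![(EuclideanSpace.single 2 (1:ℝ) : E 4), EuclideanSpace.single 3 (1:ℝ)] := by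
      rw [orthonormal_iff_ite]
      intro i j
      fin_cases i <;> fin_cases j <;> simp [EuclideanSpace.inner_single_left]
    exact h.linearIndependent

theorem S0_zero {x : E 4} (hx : x ∈ S0) : x 0 = 0 ∧ x 1 = 0 := by
  unfold S0 at hx
  refine Submodule.span_induction (p := fun x _ => x 0 = 0 ∧ x 1 = 0) ?_ ?_ ?_ ?_ hx
  · rintro _ ⟨i, rfl⟩
    fin_cases i <;> simp
  · simp
  · rintro x y _ _ ⟨h1, h2⟩ ⟨h3, h4⟩
    simp [h1, h2, h3, h4]
  · rintro a x _ ⟨h1, h2⟩
    simp [h1, h2]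

theorem areaF_zero (σ τ : ℝ) : areaF σ τ 0 0 0 0 = π * (1 - 4 / 25 * τ) ^ 2 := by
  unfold areaF
  have h : ∀ θ : ℝ, (hh σ τ 0 0 0 0 θ) ^ 2 - (hh1 σ τ 0 0 0 0 θ) ^ 2 = (1 - 4 / 25 * τ) ^ 2 := by
    intro θ
    unfold hh hh1 PP DP Dd DD Do oo cz
    simp
    ring
  simp only [h]
  rw [intervalIntegral.integral_const, smul_eq_mul]
  ring

theorem plane_value {σ τ : ℝ} (hσ : |σ| ≤ 1 / 100) (hτ : |τ| ≤ 1 / 1000) :
    projVolume 2 (body σ τ) S0 =
      ENNReal.ofReal (flagCoeff 2 2) * ENNReal.ofReal (π * (1 - 4 / 25 * τ) ^ 2) := by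
  obtain ⟨b, hb⟩ := projVolume_eq (body σ τ) S0 2 S0_finrank 2
  rw [hb, projVolume_body hσ hτ le_rfl]
  congr 1
  have h : ∀ (g : O 2) (j : Fin 2), pv b g j 0 = 0 ∧ pv b g j 1 = 0 := by
    intro g j
    exact S0_zero (b.repr.symm (col g j)).2
  have h2 : ∀ g : O 2, ENNReal.ofReal (areaF σ τ
        (pv b g (Fin.castLE le_rfl 0) 0) (pv b g (Fin.castLE le_rfl 0) 1)
        (pv b g (Fin.castLE le_rfl 1) 0) (pv b g (Fin.castLE le_rfl 1) 1)) =
        ENNReal.ofReal (π * (1 - 4 / 25 * τ) ^ 2) := by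
    intro g
    rw [(h g _).1, (h g _).2, (h g _).1, (h g _).2, areaF_zero]
  rw [lintegral_congr h2, lintegral_const, measure_univ, mul_one]

theorem plane_ne (ε : ℝ) (hε0 : 0 < ε) (hε : ε ≤ 1 / 100) :
    projVolume 2 (body ε (ε ^ 2)) S0 ≠ projVolume 2 (body 0 (-ε ^ 2)) S0 := by
  have a1 : |ε| ≤ 1 / 100 := by rw [abs_of_pos hε0]; exact hε
  have a2 : |ε ^ 2| ≤ 1 / 1000 := by rw [abs_of_pos (by positivity)]; nlinarith
  have a3 : |(0:ℝ)| ≤ 1 / 100 := by norm_num
  have a4 : |-ε ^ 2| ≤ 1 / 1000 := by rw [abs_neg]; exact a2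
  rw [plane_value a1 a2, plane_value a3 a4]
  have hf := flagCoeff_pos (le_refl 2)
  rw [← ENNReal.ofReal_mul hf.le, ← ENNReal.ofReal_mul hf.le]
  intro h
  rw [ENNReal.ofReal_eq_ofReal_iff (by positivity) (by positivity)] at h
  have h1 := mul_left_cancel₀ hf.ne' h
  have h2 := mul_left_cancel₀ Real.pi_pos.ne' h1
  have h3 : 0 < ε ^ 2 := by positivity
  nlinarith

end Pool.Agent.H892R2.Proj
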